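import Pool.Agent.Run7.h852.NW.Stm

set_option autoImplicit false

/-!
# Project NB (MP_70f7a7_an): the image of a nonwandering point is nonwandering (INV)
-/

namespace Run7.h842.NB

open MeasureTheory Set Filter Topology
open scoped NNReal

section ode

variable {F : Type*} [NormedAddCommGroup F] [NormedSpace ℝ F]

/-- Solutions of an autonomous equation with a `C^1` field on an open set are unique. -/
lemma uniq {U : Set F} (hU : IsOpen U) {v : F → F} (hv : ContDiffOn ℝ 1 v U) {f g : ℝ → F}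
    (hf : ∀ t, HasDerivAt f (v (f t)) t) (hfU : ∀ t, f t ∈ U)
    (hg : ∀ t, HasDerivAt g (v (g t)) t) (h0 : f 0 = g 0) : f = g := by
  have hfc : Continuous f := continuous_iff_continuousAt.2 fun t => (hf t).continuousAt
  have hgc : Continuous g := continuous_iff_continuousAt.2 fun t => (hg t).continuousAt
  have hclosed : IsClosed {t | f t = g t} := isClosed_eq hfc hgc
  have hopen : IsOpen {t | f t = g t} := by
    rw [isOpen_iff_mem_nhds]
    intro t ht
    obtain ⟨K, s, hs, hL⟩ := (hv.contDiffAt (hU.mem_nhds (hfU t))).exists_lipschitzOnWith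
    have hs' : s ∈ 𝓝 (g t) := by
      have : f t = g t := ht
      rwa [this] at hs
    have := ODE_solution_unique_of_eventually (v := fun _ => v) (s := fun _ => s) (K := K)
      (f := f) (g := g) (t₀ := t) (Eventually.of_forall fun _ => hL)
      ((hfc.continuousAt.eventually hs).mono fun u hu => ⟨hf u, hu⟩)
      ((hgc.continuousAt.eventually hs').mono fun u hu => ⟨hg u, hu⟩) ht
    exact this
  have huniv : {t | f t = g t} = univ :=
    IsClopen.eq_univ ⟨hclosed, hopen⟩ ⟨0, h0⟩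
  funext t
  have : t ∈ {t | f t = g t} := by rw [huniv]; exact mem_univ t
  exact this

/-- Continuous dependence on the initial value, forward in time. -/
lemma cont_fwd [ProperSpace F] {U : Set F} (hU : IsOpen U) {v : F → F} (hv : ContDiffOn ℝ 1 v U)
    {f : ℝ → F} (hf : ∀ t, HasDerivAt f (v (f t)) t) (hfU : ∀ t, f t ∈ U) {T : ℝ} (hT : 0 ≤ T)
    {ε : ℝ} (hε : 0 < ε) :
    ∃ δ > 0, ∀ g : ℝ → F, (∀ t, HasDerivAt g (v (g t)) t) → (∀ t, g t ∈ U) →
      dist (g 0) (f 0) < δ → dist (g T) (f T) < ε := by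
  have hfc : Continuous f := continuous_iff_continuousAt.2 fun t => (hf t).continuousAt
  have hK0 : IsCompact (f '' Icc 0 T) := isCompact_Icc.image hfc
  obtain ⟨r, hr, hrU⟩ := hK0.exists_cthickening_subset_open hU
    (by rintro _ ⟨t, -, rfl⟩; exact hfU t)
  have hK1 : IsCompact (Metric.cthickening r (f '' Icc 0 T)) := hK0.cthickening
  obtain ⟨L, hL⟩ : ∃ L, LipschitzOnWith L v (Metric.cthickening r (f '' Icc 0 T)) := by
    refine LocallyLipschitzOn.exists_lipschitzOnWith_of_compact hK1 ?_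
    intro x hx
    obtain ⟨K, s, hs, hL⟩ := (hv.contDiffAt (hU.mem_nhds (hrU hx))).exists_lipschitzOnWith
    exact ⟨K, s, mem_nhdsWithin_of_mem_nhds hs, hL⟩
  set η : ℝ := min (ε / 2) (r / 2) with hη
  have hη0 : 0 < η := lt_min (by linarith) (by linarith)
  have hηε : η < ε := lt_of_le_of_lt (min_le_left _ _) (by linarith)
  have hηr : η < r := lt_of_le_of_lt (min_le_right _ _) (by linarith)
  refine ⟨η * Real.exp (-((L : ℝ) * T)), by positivity, ?_⟩
  intro g hg hgU hd
  have hgc : Continuous g := continuous_iff_continuousAt.2 fun t => (hg t).continuousAt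
  have hmem0 : ∀ t, 0 ≤ t → t ≤ T → f t ∈ Metric.cthickening r (f '' Icc 0 T) := fun t h0 hT' =>
    Metric.self_subset_cthickening _ ⟨t, ⟨h0, hT'⟩, rfl⟩
  -- Gronwall
  have gron : ∀ S, 0 ≤ S → S ≤ T → (∀ t, 0 ≤ t → t < S → dist (f t) (g t) < r) →
      dist (f S) (g S) ≤ η := by
    intro S hS0 hST hS
    have h1 := dist_le_of_trajectories_ODE_of_mem (v := fun _ => v)
      (s := fun _ => Metric.cthickening r (f '' Icc 0 T)) (K := L) (f := f) (g := g) (a := 0)
      (b := S) (δ := η * Real.exp (-((L : ℝ) * T))) (fun _ _ => hL) hfc.continuousOn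
      (fun t _ => (hf t).hasDerivWithinAt) (fun t ht => hmem0 t ht.1 (ht.2.le.trans hST))
      hgc.continuousOn (fun t _ => (hg t).hasDerivWithinAt)
      (fun t ht => by
        refine Metric.mem_cthickening_of_dist_le (g t) (f t) r _
          ⟨t, ⟨ht.1, ht.2.le.trans hST⟩, rfl⟩ ?_
        rw [dist_comm]
        exact (hS t ht.1 ht.2).le)
      (by rw [dist_comm]; exact hd.le) S ⟨hS0, le_rfl⟩
    refine h1.trans ?_
    rw [sub_zero, mul_assoc, ← Real.exp_add]
    have h2 : Real.exp (-((L : ℝ) * T) + (L : ℝ) * S) ≤ 1 := by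
      rw [Real.exp_le_one_iff]
      have : (L : ℝ) * S ≤ (L : ℝ) * T := mul_le_mul_of_nonneg_left hST L.coe_nonneg
      linarith
    calc η * Real.exp (-((L : ℝ) * T) + (L : ℝ) * S) ≤ η * 1 :=
          mul_le_mul_of_nonneg_left h2 hη0.le
      _ = η := mul_one η
  have hall : ∀ t, 0 ≤ t → t ≤ T → dist (f t) (g t) < r := by
    by_contra hcon
    push Not at hcon
    obtain ⟨t, ht0, htT, htr⟩ := hcon
    let B : Set ℝ := {t | 0 ≤ t ∧ t ≤ T ∧ r ≤ dist (f t) (g t)}
    have hBne : B.Nonempty := ⟨t, ht0, htT, htr⟩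
    have hBb : BddBelow B := ⟨0, fun u hu => hu.1⟩
    have hBc : IsClosed B :=
      (isClosed_le continuous_const continuous_id).inter
        ((isClosed_le continuous_id continuous_const).inter
          (isClosed_le continuous_const (hfc.dist hgc)))
    have hS := hBc.csInf_mem hBne hBb
    obtain ⟨hS0, hST, hSr⟩ := hS
    have h3 := gron (sInf B) hS0 hST (by
      intro u hu0 hu
      by_contra hc
      have huB : u ∈ B := ⟨hu0, hu.le.trans hST, not_lt.1 hc⟩
      exact absurd (csInf_le hBb huB) (not_le.2 hu))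
    linarith
  have h4 := gron T hT le_rfl (fun t h0 h1 => hall t h0 h1.le)
  rw [dist_comm]
  exact h4.trans_lt hηε

/-- Continuous dependence on the initial value. -/
lemma cont_both [ProperSpace F] {U : Set F} (hU : IsOpen U) {v : F → F} (hv : ContDiffOn ℝ 1 v U)
    {f : ℝ → F} (hf : ∀ t, HasDerivAt f (v (f t)) t) (hfU : ∀ t, f t ∈ U) (T : ℝ)
    {ε : ℝ} (hε : 0 < ε) :
    ∃ δ > 0, ∀ g : ℝ → F, (∀ t, HasDerivAt g (v (g t)) t) → (∀ t, g t ∈ U) →
      dist (g 0) (f 0) < δ → dist (g T) (f T) < ε := by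
  rcases le_total 0 T with hT | hT
  · exact cont_fwd hU hv hf hfU hT hε
  · have hrev : ∀ f : ℝ → F, (∀ t, HasDerivAt f (v (f t)) t) →
        ∀ t, HasDerivAt (fun s => f (-s)) ((fun x => -v x) (f (-t))) t := by
      intro f hf t
      have h1 : HasDerivAt (f ∘ Neg.neg) ((-1 : ℝ) • v (f (-t))) t :=
        (hf (-t)).scomp t (hasDerivAt_neg t)
      rw [neg_one_smul] at h1
      exact h1
    obtain ⟨δ, hδ, h⟩ := cont_fwd hU (v := fun x => -v x) hv.neg (f := fun s => f (-s))
      (hrev f hf) (fun t => hfU _) (T := -T) (by linarith) hε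
    refine ⟨δ, hδ, fun g hg hgU hd => ?_⟩
    have := h (fun s => g (-s)) (hrev g hg) (fun t => hgU _) (by simpa using hd)
    simpa using this

end ode

open Pool.Agent.Y516.NW (E3 Cfg Surf acc gr Mot NonW Free Z IsFl vel)

lemma Z_contDiff {N : ℕ} (m : Fin N → ℝ) (ψ : Cfg N × Cfg N → ℝ)
    (hψ : ContDiffOn ℝ 1 ψ (Free N)) : ContDiffOn ℝ 1 (Z m ψ) (Free N) := by
  unfold Z
  refine hψ.smul ?_
  have h1 : ∀ i : Fin N, ContDiff ℝ 1 (fun x : Cfg N × Cfg N => x.1 i) := fun i =>
    (contDiff_apply ℝ E3 i).comp contDiff_fst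
  have h2 : ∀ i : Fin N, ContDiff ℝ 1 (fun x : Cfg N × Cfg N => x.2 i) := fun i =>
    (contDiff_apply ℝ E3 i).comp contDiff_snd
  refine ContDiffOn.prodMk ?_ ?_
  · refine contDiffOn_pi.2 fun i => ?_
    exact ((contDiff_const (c := (m i)⁻¹)).smul (h2 i)).contDiffOn
  · refine contDiffOn_pi.2 fun i => ?_
    refine ContDiffOn.sum fun j _ => ?_
    by_cases hij : j = i
    · subst hij
      simp only [sub_self, smul_zero]
      exact contDiffOn_const
    · have h4 : ContDiffOn ℝ 1 (fun x : Cfg N × Cfg N => m i * m j / ‖x.1 j - x.1 i‖ ^ 3)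
          (Free N) := by
        intro x hx
        have hne : x.1 j - x.1 i ≠ 0 := sub_ne_zero.2 (hx j i hij)
        have h3 : ContDiffAt ℝ 1 (fun x : Cfg N × Cfg N => ‖x.1 j - x.1 i‖) x :=
          ((h1 j).sub (h1 i)).contDiffAt.norm ℝ hne
        exact (contDiffAt_const.div (h3.pow 3)
          (pow_ne_zero 3 (norm_ne_zero_iff.2 hne))).contDiffWithinAt
      exact h4.smul ((h1 j).sub (h1 i)).contDiffOn

theorem t_INV : Run7.h852.NW.InvStm := by
  intro N m hm E ψ φ hφ hψ x hx s hN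
  have hZ := Z_contDiff m ψ hψ
  have hU : IsOpen (Free N) := Pool.Agent.Y516.NW.free_open
  have hsol : ∀ y ∈ Surf m E, ∀ t, HasDerivAt (fun u : ℝ => φ u y) (Z m ψ (φ t y)) t :=
    fun y hy t => ((hφ.flow y hy).2 t).2
  have hS : ∀ y ∈ Surf m E, ∀ t, φ t y ∈ Surf m E := fun y hy t => ((hφ.flow y hy).2 t).1
  have hfr : ∀ y ∈ Surf m E, ∀ t, φ t y ∈ Free N := fun y hy t =>
    Pool.Agent.Y516.NW.surf_free m E (hS y hy t)
  have h0 : ∀ y ∈ Surf m E, φ 0 y = y := fun y hy => (hφ.flow y hy).1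
  -- group property
  have hgrp : ∀ y ∈ Surf m E, ∀ a t : ℝ, φ t (φ a y) = φ (t + a) y := by
    intro y hy a
    have hfun : (fun t => φ t (φ a y)) = fun t => φ (t + a) y := by
      refine uniq hU hZ (hsol _ (hS y hy a)) (hfr _ (hS y hy a)) ?_ ?_
      · intro t
        exact (hsol y hy (t + a)).comp_add_const t a
      · show φ 0 (φ a y) = φ (0 + a) y
        rw [h0 _ (hS y hy a), zero_add]
    intro t
    exact congrFun hfun t
  intro V hV hxV T
  obtain ⟨ε, hε, hball⟩ := Metric.isOpen_iff.1 hV _ hxV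
  obtain ⟨δ, hδ, hcont⟩ := cont_both hU hZ (hsol x hx) (hfr x hx) s hε
  obtain ⟨t, ht, y, ⟨hyV, hyS⟩, hty⟩ := hN (Metric.ball x δ) Metric.isOpen_ball
    (Metric.mem_ball_self hδ) T
  have hmap : ∀ z ∈ Surf m E, z ∈ Metric.ball x δ → φ s z ∈ V := by
    intro z hz hzb
    refine hball ?_
    have := hcont (fun u => φ u z) (hsol z hz) (hfr z hz) (by
      show dist (φ 0 z) (φ 0 x) < δ
      rw [h0 z hz, h0 x hx]
      exact hzb)
    exact this
  refine ⟨t, ht, φ s y, ⟨hmap y hyS hyV, hS y hyS s⟩, ?_⟩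
  have h5 : φ t (φ s y) = φ s (φ t y) := by
    rw [hgrp y hyS, hgrp y hyS, add_comm]
  rw [h5]
  exact hmap _ (hS y hyS t) hty

end Run7.h842.NB
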