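import Mathlib

/-!
Local star-shapedness towards a point, and its convexity in the point.
-/

open Set Metric Topology

namespace Run7.h842.Star

variable {V : Type*} [NormedAddCommGroup V] [InnerProductSpace ℝ V]

/-- Inside the set `U`, the set `E` is invariant under moving straight towards `y`. -/
def Good (E U : Set V) (y : V) : Prop :=
  ∀ x ∈ E, x ∈ U → ∀ t ∈ Icc (0:ℝ) 1, x + t • (y - x) ∈ U → x + t • (y - x) ∈ E

lemma Good.mono {E U U' : Set V} {y : V} (h : Good E U y) (hU : U' ⊆ U) :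
    Good E U' y := fun x hx hxU t ht htU => h x hx (hU hxU) t ht (hU htU)

/-- The set of points towards which `E` is locally star-shaped inside an open convex `U`
is convex.  Proof by sliding a small ball. -/
theorem convex_good [ProperSpace V] {E U : Set V} (hE : IsClosed E) (hUo : IsOpen U)
    (hUc : Convex ℝ U) : Convex ℝ {y | Good E U y} := by
  intro y₁ hy₁ y₂ hy₂ a b ha hb hab x hx hxU t ht hqU
  set y : V := a • y₁ + b • y₂ with hy
  set q : V := x + t • (y - x) with hq
  by_contra hqE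
  -- the path
  let c : ℝ → V := fun s => x + s • (q - x)
  have hc : Continuous c := by fun_prop
  have hc0 : c 0 = x := by simp [c]
  have hc1 : c 1 = q := by simp [c]
  have hE0 : E.Nonempty := ⟨x, hx⟩
  have ht0 : 0 < t := by
    rcases lt_or_eq_of_le ht.1 with h | h
    · exact h
    · exfalso; apply hqE; rw [hq, ← h]; simpa using hx
  -- compact segment in U
  have hseg : ∀ s ∈ Icc (0:ℝ) 1, c s ∈ U := by
    intro s hs
    have : c s = (1 - s) • x + s • q := by simp only [c]; module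
    rw [this]
    exact hUc hxU hqU (by linarith [hs.2]) hs.1 (by ring)
  have hcomp : IsCompact (c '' Icc (0:ℝ) 1) := isCompact_Icc.image hc
  obtain ⟨δ, hδ, hδU⟩ := hcomp.exists_thickening_subset_open hUo
    (by rintro _ ⟨s, hs, rfl⟩; exact hseg s hs)
  have hqd : 0 < infDist q E := (hE.notMem_iff_infDist_pos hE0).1 hqE
  -- choose ε
  obtain ⟨ε, hε, hεδ, hεq⟩ : ∃ ε > 0, ε < δ ∧ ε < infDist q E :=
    ⟨min δ (infDist q E) / 2, by positivity, by
      have := min_le_left δ (infDist q E); linarith [lt_min hδ hqd], by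
      have := min_le_right δ (infDist q E); linarith [lt_min hδ hqd]⟩
  -- last time at which the distance is ≤ ε
  let f : ℝ → ℝ := fun s => infDist (c s) E
  have hf : Continuous f := (continuous_infDist_pt E).comp hc
  let S : Set ℝ := Icc (0:ℝ) 1 ∩ {s | f s ≤ ε}
  have hScomp : IsCompact S := isCompact_Icc.inter_right (isClosed_le hf continuous_const)
  have hS0 : (0:ℝ) ∈ S := by
    refine ⟨by simp, ?_⟩
    show infDist (c 0) E ≤ ε
    rw [hc0, infDist_zero_of_mem hx]; exact hε.le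
  obtain ⟨s₁, hs₁S, hs₁max⟩ := hScomp.exists_isGreatest ⟨0, hS0⟩
  have hs₁1 : s₁ < 1 := by
    rcases lt_or_eq_of_le hs₁S.1.2 with h | h
    · exact h
    · exfalso
      have := hs₁S.2
      rw [h] at this
      have h2 : infDist (c 1) E ≤ ε := this
      rw [hc1] at h2; linarith
  have hgt : ∀ s, s₁ < s → s ≤ 1 → ε < f s := by
    intro s h1 h2
    by_contra h
    push Not at h
    have : s ∈ S := ⟨⟨hs₁S.1.1.trans h1.le, h2⟩, h⟩
    exact absurd (hs₁max this) (not_le.2 h1)
  have hfs₁ : ε ≤ f s₁ := by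
    have hcl : s₁ ∈ closure (Ioo s₁ 1) := by
      rw [closure_Ioo hs₁1.ne]; exact ⟨le_rfl, hs₁1.le⟩
    have hsub : closure (Ioo s₁ 1) ⊆ {s | ε ≤ f s} :=
      closure_minimal (fun s hs => (hgt s hs.1 hs.2.le).le) (isClosed_le continuous_const hf)
    exact hsub hcl
  have hfs : f s₁ = ε := le_antisymm hs₁S.2 hfs₁
  obtain ⟨w, hwE, hw⟩ := hE.exists_infDist_eq_dist hE0 (c s₁)
  have hdw : dist (c s₁) w = ε := by rw [← hw]; exact hfs
  have hwU : w ∈ U := by
    apply hδU
    rw [mem_thickening_iff]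
    exact ⟨c s₁, ⟨s₁, hs₁S.1, rfl⟩, by rw [dist_comm, hdw]; exact hεδ⟩
  set ν : V := c s₁ - w with hν
  have hνn : ‖ν‖ = ε := by rw [hν, ← dist_eq_norm]; exact hdw
  have hνn2 : inner ℝ ν ν = ε ^ 2 := by rw [real_inner_self_eq_norm_sq, hνn]
  -- forward direction
  have hfor : 0 ≤ inner ℝ (q - x) ν := by
    by_contra hneg
    push Not at hneg
    have key : ∀ h : ℝ, 0 < h → s₁ + h ≤ 1 →
        0 < 2 * inner ℝ (q - x) ν + h * ‖q - x‖ ^ 2 := by
      intro h hh hh1
      have h1 : ε < f (s₁ + h) := hgt _ (by linarith) hh1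
      have h2 : f (s₁ + h) ≤ dist (c (s₁ + h)) w := infDist_le_dist_of_mem hwE
      have h3 : c (s₁ + h) - w = ν + h • (q - x) := by
        simp only [c, hν]; module
      rw [dist_eq_norm, h3] at h2
      have h4 : ε ^ 2 < ‖ν + h • (q - x)‖ ^ 2 := by
        apply pow_lt_pow_left₀ (h1.trans_le h2) hε.le two_ne_zero
      rw [norm_add_sq_real, hνn, norm_smul, inner_smul_right, Real.norm_eq_abs, mul_pow,
        sq_abs, real_inner_comm] at h4
      have h5 : 0 < h * (2 * inner ℝ (q - x) ν + h * ‖q - x‖ ^ 2) := by nlinarith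
      exact (mul_pos_iff_of_pos_left hh).1 h5
    have hlim : ∀ᶠ h in 𝓝[>] (0:ℝ), 0 < 2 * inner ℝ (q - x) ν + h * ‖q - x‖ ^ 2 := by
      filter_upwards [Ioo_mem_nhdsGT (sub_pos.2 hs₁1)] with h hh
      exact key h hh.1 (by linarith [hh.2])
    have hten : Filter.Tendsto (fun h : ℝ => 2 * inner ℝ (q - x) ν + h * ‖q - x‖ ^ 2)
        (𝓝[>] 0) (𝓝 (2 * inner ℝ (q - x) ν + 0 * ‖q - x‖ ^ 2)) := by
      apply Filter.Tendsto.mono_left _ nhdsWithin_le_nhds
      exact (by fun_prop : Continuous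
        (fun h : ℝ => 2 * inner ℝ (q - x) ν + h * ‖q - x‖ ^ 2)).tendsto 0
    have := ge_of_tendsto hten (hlim.mono fun _ h => h.le)
    linarith
  -- normal inequality
  have hnor : ∀ z, Good E U z → inner ℝ (z - w) ν ≤ 0 := by
    intro z hz
    have hev : ∀ᶠ h in 𝓝[>] (0:ℝ), w + h • (z - w) ∈ U := by
      have hcont : Continuous (fun h : ℝ => w + h • (z - w)) := by fun_prop
      have : ∀ᶠ h in 𝓝 (0:ℝ), w + h • (z - w) ∈ U :=
        hcont.continuousAt.eventually_mem (by simpa using hUo.mem_nhds hwU)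
      exact this.filter_mono nhdsWithin_le_nhds
    have hlim : ∀ᶠ h in 𝓝[>] (0:ℝ), 0 ≤ -2 * inner ℝ (z - w) ν + h * ‖z - w‖ ^ 2 := by
      filter_upwards [hev, Ioo_mem_nhdsGT (zero_lt_one' ℝ)] with h hhU hh
      have h0 : w + h • (z - w) ∈ E := hz w hwE hwU h ⟨hh.1.le, hh.2.le⟩ hhU
      have h2 : f s₁ ≤ dist (c s₁) (w + h • (z - w)) := infDist_le_dist_of_mem h0
      have h3 : c s₁ - (w + h • (z - w)) = ν - h • (z - w) := by
        simp only [hν]; module
      rw [dist_eq_norm, h3, hfs] at h2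
      have h4 : ε ^ 2 ≤ ‖ν - h • (z - w)‖ ^ 2 := pow_le_pow_left₀ hε.le h2 2
      rw [norm_sub_sq_real, hνn, norm_smul, inner_smul_right, Real.norm_eq_abs, mul_pow,
        sq_abs, real_inner_comm] at h4
      have h5 : 0 ≤ h * (-2 * inner ℝ (z - w) ν + h * ‖z - w‖ ^ 2) := by nlinarith
      exact nonneg_of_mul_nonneg_right h5 hh.1
    have hten : Filter.Tendsto (fun h : ℝ => -2 * inner ℝ (z - w) ν + h * ‖z - w‖ ^ 2)
        (𝓝[>] 0) (𝓝 (-2 * inner ℝ (z - w) ν + 0 * ‖z - w‖ ^ 2)) := by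
      apply Filter.Tendsto.mono_left _ nhdsWithin_le_nhds
      exact (by fun_prop : Continuous
        (fun h : ℝ => -2 * inner ℝ (z - w) ν + h * ‖z - w‖ ^ 2)).tendsto 0
    have := ge_of_tendsto hten hlim
    linarith
  have h1 := hnor y₁ hy₁
  have h2 := hnor y₂ hy₂
  have h3 : inner ℝ (y - w) ν ≤ 0 := by
    have : y - w = a • (y₁ - w) + b • (y₂ - w) := by
      rw [hy]
      have : w = (a + b) • w := by rw [hab, one_smul]
      conv_lhs => rw [this]
      module
    rw [this, inner_add_left, inner_smul_left, inner_smul_left]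
    simp only [conj_trivial]
    nlinarith
  -- contradiction
  have hqx : q - x = t • (y - x) := by rw [hq]; abel
  have hyw : t • (y - w) = (1 - s₁ * t) • (q - x) + t • ν := by
    rw [hν]
    simp only [c]
    rw [hqx]
    module
  have h6 : t * inner ℝ (y - w) ν = (1 - s₁ * t) * inner ℝ (q - x) ν + t * ε ^ 2 := by
    have := congrArg (fun v => inner ℝ v ν) hyw
    simp only [inner_add_left, inner_smul_left, conj_trivial] at this
    rw [this, hνn2]
  have h7 : 0 ≤ 1 - s₁ * t := by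
    have : s₁ * t ≤ 1 * 1 := mul_le_mul hs₁S.1.2 ht.2 ht.1 zero_le_one
    linarith
  have h8 : t * inner ℝ (y - w) ν ≤ 0 := mul_nonpos_of_nonneg_of_nonpos ht0.le h3
  have h9 : 0 < t * ε ^ 2 := by positivity
  have h10 : 0 ≤ (1 - s₁ * t) * inner ℝ (q - x) ν := mul_nonneg h7 hfor
  linarith

end Run7.h842.Star
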