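import Mathlib
import Pool.Agent.Run7.h842.StarA

/-!
Connectedness of the intersection of a compact connected, locally convex or locally
star-shaped-towards-`y` set with a closed convex set containing `y`.
-/

open Set Metric Topology

namespace Run7.h842.Star

variable {V : Type*} [NormedAddCommGroup V] [InnerProductSpace ℝ V]

/-- The set of points towards which `E` is locally star-shaped inside an open set is closed. -/
theorem isClosed_good {E U : Set V} (hE : IsClosed E) (hUo : IsOpen U) :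
    IsClosed {y | Good E U y} := by
  rw [← closure_subset_iff_isClosed]
  intro y hy x hx hxU t ht htU
  have hcont : Continuous (fun z : V => x + t • (z - x)) := by fun_prop
  rw [mem_closure_iff_seq_limit] at hy
  obtain ⟨u, hu, hlim⟩ := hy
  have h1 : Filter.Tendsto (fun n => x + t • (u n - x)) Filter.atTop (𝓝 (x + t • (y - x))) :=
    (hcont.tendsto y).comp hlim
  have h2 : ∀ᶠ n in Filter.atTop, x + t • (u n - x) ∈ U := h1.eventually_mem (hUo.mem_nhds htU)
  apply hE.mem_of_tendsto h1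
  filter_upwards [h2] with n hn
  exact hu n x hx hxU t ht hn

lemma convexOn_infDist [ProperSpace V] {K : Set V} (hK : IsClosed K) (hKc : Convex ℝ K)
    (hne : K.Nonempty) : ConvexOn ℝ univ (fun w => infDist w K) := by
  refine ⟨convex_univ, ?_⟩
  intro w _ v _ a b ha hb hab
  obtain ⟨kw, hkw, hkw'⟩ := hK.exists_infDist_eq_dist hne w
  obtain ⟨kv, hkv, hkv'⟩ := hK.exists_infDist_eq_dist hne v
  have hmem : a • kw + b • kv ∈ K := hKc hkw hkv ha hb hab
  calc infDist (a • w + b • v) K ≤ dist (a • w + b • v) (a • kw + b • kv) :=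
        infDist_le_dist_of_mem hmem
    _ = ‖a • (w - kw) + b • (v - kv)‖ := by rw [dist_eq_norm]; congr 1; module
    _ ≤ ‖a • (w - kw)‖ + ‖b • (v - kv)‖ := norm_add_le _ _
    _ = a * ‖w - kw‖ + b * ‖v - kv‖ := by
        rw [norm_smul, norm_smul, Real.norm_of_nonneg ha, Real.norm_of_nonneg hb]
    _ = a • infDist w K + b • infDist v K := by
        rw [hkw', hkv', dist_eq_norm, dist_eq_norm]; simp [smul_eq_mul]

/-- each point of `E` has a ball in which `E` is convex or star-shaped towards `y` -/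
def Loc (E : Set V) (y : V) : Prop :=
  ∀ w ∈ E, ∃ ρ > 0, Convex ℝ (E ∩ ball w ρ) ∨ Good E (ball w ρ) y

lemma preconn_sep {G P Q : Set V} (hG : IsPreconnected G) (hP : IsClosed P) (hQ : IsClosed Q)
    (hd : Disjoint P Q) (hsub : G ⊆ P ∪ Q) {p q : V} (hp : p ∈ G) (hpP : p ∈ P)
    (hq : q ∈ G) (hqQ : q ∈ Q) : False := by
  obtain ⟨z, _, hz⟩ := isPreconnected_closed_iff.1 hG P Q hP hQ hsub ⟨p, hp, hpP⟩ ⟨q, hq, hqQ⟩
  exact (Set.disjoint_left.1 hd) hz.1 hz.2

/-- uniform version of `Loc` -/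
lemma Loc.uniform {E : Set V} {y : V} (hE : IsCompact E) (h : Loc E y) :
    ∃ R > 0, ∀ w ∈ E, Convex ℝ (E ∩ ball w (4 * R)) ∨ Good E (ball w (4 * R)) y := by
  choose! ρ hρ hρ' using h
  obtain ⟨δ, hδ, hδ'⟩ := lebesgue_number_lemma_of_metric (s := E) (ι := E)
    (c := fun w => ball (w : V) (ρ w)) hE (fun _ => isOpen_ball)
    (fun w hw => mem_iUnion.2 ⟨⟨w, hw⟩, mem_ball_self (hρ w hw)⟩)
  refine ⟨δ / 4, by positivity, fun w hw => ?_⟩
  have h4 : 4 * (δ / 4) = δ := by ring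
  rw [h4]
  obtain ⟨⟨i, hi⟩, hsub⟩ := hδ' w hw
  rcases hρ' i hi with h | h
  · left
    have : E ∩ ball w δ = (E ∩ ball i (ρ i)) ∩ ball w δ := by
      ext z; constructor
      · rintro ⟨h1, h2⟩; exact ⟨⟨h1, hsub h2⟩, h2⟩
      · rintro ⟨⟨h1, _⟩, h2⟩; exact ⟨h1, h2⟩
    rw [this]
    exact h.inter (convex_ball w δ)
  · right; exact h.mono hsub

section main

variable [ProperSpace V] {E : Set V} {y : V} {φ : V → ℝ}

/-- separation of the sublevel set -/
def Sep (E : Set V) (φ : V → ℝ) (A B : Set V) (t : ℝ) : Prop :=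
  ∃ P Q : Set V, IsClosed P ∧ IsClosed Q ∧ Disjoint P Q ∧ P ∪ Q = E ∩ {w | φ w ≤ t} ∧
    A ⊆ P ∧ B ⊆ Q

lemma Sep.open_right (hE : IsCompact E) (hφ : Continuous φ) {A B : Set V} {t : ℝ}
    (h : Sep E φ A B t) : ∃ ε > 0, Sep E φ A B (t + ε) := by
  obtain ⟨P, Q, hP, hQ, hd, hPQ, hA, hB⟩ := h
  obtain ⟨U, W, hU, hW, hPU, hQW, hUW⟩ := normal_separation hP hQ hd
  have hC : IsCompact (E \ (U ∪ W)) := hE.diff (hU.union hW)
  have key : ∃ ε > 0, E ∩ {w | φ w ≤ t + ε} ⊆ U ∪ W := by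
    rcases (E \ (U ∪ W)).eq_empty_or_nonempty with h0 | h0
    · refine ⟨1, one_pos, fun w hw => ?_⟩
      by_contra hcon
      have : w ∈ E \ (U ∪ W) := ⟨hw.1, hcon⟩
      rw [h0] at this; exact this
    · obtain ⟨m, hm, hmin⟩ := hC.exists_isMinOn h0 hφ.continuousOn
      have hmt : t < φ m := by
        by_contra hcon
        push Not at hcon
        have : m ∈ P ∪ Q := by rw [hPQ]; exact ⟨hm.1, hcon⟩
        exact hm.2 (this.elim (fun h => Or.inl (hPU h)) (fun h => Or.inr (hQW h)))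
      refine ⟨(φ m - t) / 2, by linarith, fun w hw => ?_⟩
      by_contra hcon
      have h1 : φ m ≤ φ w := hmin ⟨hw.1, hcon⟩
      have h2 : φ w ≤ t + (φ m - t) / 2 := hw.2
      linarith
  obtain ⟨ε, hε, hsub⟩ := key
  have hcl : IsClosed (E ∩ {w | φ w ≤ t + ε}) :=
    hE.isClosed.inter (isClosed_le hφ continuous_const)
  have hmono : P ∪ Q ⊆ E ∩ {w | φ w ≤ t + ε} := by
    rw [hPQ]
    rintro w ⟨h1, h2⟩
    exact ⟨h1, by have : φ w ≤ t := h2
                  show φ w ≤ t + ε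
                  linarith⟩
  refine ⟨ε, hε, (E ∩ {w | φ w ≤ t + ε}) \ W, (E ∩ {w | φ w ≤ t + ε}) \ U, ?_, ?_, ?_, ?_, ?_, ?_⟩
  · exact hcl.sdiff hW
  · exact hcl.sdiff hU
  · rw [Set.disjoint_left]
    rintro w ⟨h1, h2⟩ ⟨_, h3⟩
    exact (hsub h1).elim h3 h2
  · ext w
    constructor
    · rintro (h | h) <;> exact h.1
    · intro h
      by_cases hw : w ∈ W
      · right; exact ⟨h, fun hu => Set.disjoint_left.1 hUW hu hw⟩
      · left; exact ⟨h, hw⟩
  · intro w hw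
    exact ⟨hmono (Or.inl (hA hw)), fun h => Set.disjoint_left.1 hUW (hPU (hA hw)) h⟩
  · intro w hw
    exact ⟨hmono (Or.inr (hB hw)), fun h => Set.disjoint_left.1 hUW h (hQW (hB hw))⟩

lemma Sep.mono {A B : Set V} {t t' : ℝ} (hφ : Continuous φ) (hA : A ⊆ {w | φ w ≤ t'})
    (hB : B ⊆ {w | φ w ≤ t'}) (htt : t' ≤ t) (h : Sep E φ A B t) : Sep E φ A B t' := by
  obtain ⟨P, Q, hP, hQ, hd, hPQ, hPA, hQB⟩ := h
  have hcl : IsClosed {w | φ w ≤ t'} := isClosed_le hφ continuous_const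
  refine ⟨P ∩ {w | φ w ≤ t'}, Q ∩ {w | φ w ≤ t'}, hP.inter hcl, hQ.inter hcl, ?_, ?_, ?_, ?_⟩
  · exact hd.mono inter_subset_left inter_subset_left
  · rw [← union_inter_distrib_right, hPQ]
    ext w
    constructor
    · rintro ⟨⟨h1, _⟩, h3⟩; exact ⟨h1, h3⟩
    · rintro ⟨h1, h3⟩
      exact ⟨⟨h1, le_trans h3 htt⟩, h3⟩
  · exact fun w hw => ⟨hPA hw, hA hw⟩
  · exact fun w hw => ⟨hQB hw, hB hw⟩

end main

end Run7.h842.Star
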