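import Mathlib
import Pool.Agent.Run7.h842.StarB

/-!
The push-down step: separations of the sublevel sets below a level extend to the level.
-/

open Set Metric Topology

namespace Run7.h842.Star

variable {V : Type*} [NormedAddCommGroup V] [InnerProductSpace ℝ V]

lemma push_down {E : Set V} {y : V} {φ : V → ℝ} (hE : IsCompact E)
    (hloc : Loc E y) (hφ : Continuous φ) (hφc : ConvexOn ℝ univ φ) (hφ0 : ∀ w, 0 ≤ φ w)
    (hφy : φ y = 0) {A B : Set V}
    (hAE : A ⊆ E) (hBE : B ⊆ E) (hA0 : ∀ w ∈ A, φ w = 0) (hB0 : ∀ w ∈ B, φ w = 0)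
    {ts : ℝ} (hts : 0 < ts) (hsep : ∀ t, 0 ≤ t → t < ts → Sep E φ A B t) :
    Sep E φ A B ts := by
  classical
  -- convexity estimate towards a point
  have hconv : ∀ (w v : V) (h : ℝ), 0 ≤ h → h ≤ 1 →
      φ (w + h • (v - w)) ≤ (1 - h) * φ w + h * φ v := by
    intro w v h h0 h1
    have := hφc.2 (mem_univ w) (mem_univ v) (sub_nonneg.2 h1) h0 (by ring)
    have e : (1 - h) • w + h • v = w + h • (v - w) := by module
    rw [e] at this
    simpa [smul_eq_mul] using this
  have hconvy : ∀ (w : V) (h : ℝ), 0 ≤ h → h ≤ 1 → φ (w + h • (y - w)) ≤ (1 - h) * φ w := by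
    intro w h h0 h1
    have := hconv w y h h0 h1
    rw [hφy] at this; linarith
  have hclE : ∀ t : ℝ, IsClosed (E ∩ {w | φ w ≤ t}) := fun t =>
    hE.isClosed.inter (isClosed_le hφ continuous_const)
  set L : Set V := {v | v ∈ E ∧ φ v < ts} with hL
  set M : Set V := closure L with hM
  have hLE : L ⊆ E ∩ {w | φ w ≤ ts} := fun w hw => ⟨hw.1, le_of_lt hw.2⟩
  have hME : M ⊆ E ∩ {w | φ w ≤ ts} := closure_minimal hLE (hclE ts)
  have hMcomp : IsCompact M := hE.of_isClosed_subset isClosed_closure (hME.trans inter_subset_left)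
  -- local minima
  set N : Set V := (E ∩ {w | φ w ≤ ts}) \ M with hN
  have hNcl : IsClosed N := by
    rw [← closure_subset_iff_isClosed]
    intro w hw
    have hwE : w ∈ E ∩ {w | φ w ≤ ts} := by
      have : closure N ⊆ E ∩ {w | φ w ≤ ts} := closure_minimal diff_subset (hclE ts)
      exact this hw
    refine ⟨hwE, fun hwM => ?_⟩
    obtain ⟨ρ, hρ, hcase⟩ := hloc w hwE.1
    obtain ⟨w', hw'N, hw'd⟩ := Metric.mem_closure_iff.1 hw ρ hρ
    have hw'b : w' ∈ ball w ρ := by rw [mem_ball, dist_comm]; exact hw'd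
    apply hw'N.2
    -- show w' ∈ closure L
    rcases hcase with hc | hg
    · obtain ⟨v, hvL, hvd⟩ := Metric.mem_closure_iff.1 hwM ρ hρ
      have hvb : v ∈ ball w ρ := by rw [mem_ball, dist_comm]; exact hvd
      have hev : ∀ᶠ h in 𝓝[>] (0:ℝ), w' + h • (v - w') ∈ L := by
        filter_upwards [Ioo_mem_nhdsGT (zero_lt_one' ℝ)] with h hh
        have e : w' + h • (v - w') = (1 - h) • w' + h • v := by module
        have h1 : w' + h • (v - w') ∈ E ∩ ball w ρ := by
          rw [e]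
          exact hc ⟨hw'N.1.1, hw'b⟩ ⟨hvL.1, hvb⟩ (by linarith [hh.2]) hh.1.le (by ring)
        refine ⟨h1.1, ?_⟩
        have h2 := hconv w' v h hh.1.le hh.2.le
        have h3 : φ w' ≤ ts := hw'N.1.2
        have h4 : φ v < ts := hvL.2
        nlinarith [hh.1, hh.2]
      have hcont : Continuous (fun h : ℝ => w' + h • (v - w')) := by fun_prop
      have hten : Filter.Tendsto (fun h : ℝ => w' + h • (v - w')) (𝓝[>] 0) (𝓝 w') := by
        have := (hcont.tendsto 0).mono_left (nhdsWithin_le_nhds (s := Ioi (0:ℝ)))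
        simpa using this
      exact mem_closure_of_tendsto hten hev
    · have hcont : Continuous (fun h : ℝ => w' + h • (y - w')) := by fun_prop
      have hten : Filter.Tendsto (fun h : ℝ => w' + h • (y - w')) (𝓝[>] 0) (𝓝 w') := by
        have := (hcont.tendsto 0).mono_left (nhdsWithin_le_nhds (s := Ioi (0:ℝ)))
        simpa using this
      have hball : ∀ᶠ h in 𝓝[>] (0:ℝ), w' + h • (y - w') ∈ ball w ρ :=
        hten.eventually_mem (isOpen_ball.mem_nhds hw'b)
      have hev : ∀ᶠ h in 𝓝[>] (0:ℝ), w' + h • (y - w') ∈ L := by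
        filter_upwards [hball, Ioo_mem_nhdsGT (zero_lt_one' ℝ)] with h hb hh
        refine ⟨hg w' hw'N.1.1 hw'b h ⟨hh.1.le, hh.2.le⟩ hb, ?_⟩
        have h2 := hconvy w' h hh.1.le hh.2.le
        have h3 : φ w' ≤ ts := hw'N.1.2
        nlinarith [hh.1, hh.2]
      exact mem_closure_of_tendsto hten hev
  -- uniform radius
  obtain ⟨R, hR, hRloc⟩ := hloc.uniform hE
  -- step size
  obtain ⟨D, hD⟩ : ∃ D : ℝ, ∀ w ∈ E, ‖y - w‖ ≤ D := by
    obtain ⟨D, hD⟩ := hE.exists_bound_of_continuousOn (f := fun w => y - w) (by fun_prop)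
    exact ⟨D, hD⟩
  obtain ⟨s, hs0, hs1, hsD⟩ : ∃ s : ℝ, 0 < s ∧ s < 1 ∧ ∀ w ∈ E, s * ‖y - w‖ < R := by
    have hD' : 0 < |D| + 1 := by positivity
    refine ⟨min (1/2) (R / (|D| + 1) / 2), by positivity, ?_, ?_⟩
    · exact lt_of_le_of_lt (min_le_left _ _) (by norm_num)
    · intro w hw
      have h1 : ‖y - w‖ ≤ |D| + 1 := (hD w hw).trans (by linarith [le_abs_self D])
      have h2 : min (1/2) (R / (|D| + 1) / 2) ≤ R / (|D| + 1) / 2 := min_le_right _ _
      calc min (1/2) (R / (|D| + 1) / 2) * ‖y - w‖ ≤ (R / (|D| + 1) / 2) * (|D| + 1) := by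
            apply mul_le_mul h2 h1 (norm_nonneg _) (by positivity)
        _ = R / 2 := by field_simp
        _ < R := by linarith
  -- the level t
  obtain ⟨t, ht0, htts, hts', htM⟩ : ∃ t : ℝ, 0 ≤ t ∧ t < ts ∧ (1 - s) * ts ≤ t ∧
      ∀ w ∈ M, ∃ v ∈ E, dist v w < R ∧ φ v ≤ t := by
    have hcover : M ⊆ ⋃ v : L, ball (v : V) R := by
      intro w hw
      obtain ⟨v, hv, hvd⟩ := Metric.mem_closure_iff.1 hw R hR
      exact mem_iUnion.2 ⟨⟨v, hv⟩, hvd⟩
    obtain ⟨F, hF⟩ := hMcomp.elim_finite_subcover (fun v : L => ball (v : V) R)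
      (fun _ => isOpen_ball) hcover
    -- maximum of the values
    obtain ⟨t₀, ht₀, hFt⟩ : ∃ t₀ < ts, ∀ v ∈ F, φ (v : V) ≤ t₀ := by
      by_cases hFe : F.Nonempty
      · obtain ⟨m, hm, hmax⟩ := F.exists_max_image (fun v => φ (v : V)) hFe
        exact ⟨φ m, m.2.2, hmax⟩
      · refine ⟨0, hts, fun v hv => ?_⟩
        exact absurd ⟨v, hv⟩ hFe
    refine ⟨max (max 0 ((1 - s) * ts)) t₀, ?_, ?_, ?_, ?_⟩
    · exact le_max_of_le_left (le_max_left _ _)
    · apply max_lt (max_lt hts (by nlinarith)) ht₀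
    · exact le_max_of_le_left (le_max_right _ _)
    · intro w hw
      obtain ⟨v, hv⟩ := mem_iUnion.1 (hF hw)
      obtain ⟨hvF, hvb⟩ := mem_iUnion.1 hv
      refine ⟨v, v.2.1, ?_, (hFt v hvF).trans (le_max_right _ _)⟩
      rw [dist_comm]; exact hvb
  obtain ⟨P, Q, hP, hQ, hd, hPQ, hAP, hBQ⟩ := hsep t ht0 htts
  have hPE : P ⊆ E := fun w hw => (hPQ ▸ Or.inl hw : w ∈ E ∩ {w | φ w ≤ t}).1
  have hQE : Q ⊆ E := fun w hw => (hPQ ▸ Or.inr hw : w ∈ E ∩ {w | φ w ≤ t}).1
  have hPcomp : IsCompact P := hE.of_isClosed_subset hP hPE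
  -- positive distance
  obtain ⟨η₀, hη₀, hη₀'⟩ : ∃ η > 0, ∀ p ∈ P, ∀ q ∈ Q, η ≤ dist p q := by
    obtain ⟨δ, hδ, hδ'⟩ := hd.exists_cthickenings hPcomp hQ
    refine ⟨δ, hδ, fun p hp q hq => ?_⟩
    by_contra hcon
    push Not at hcon
    have h1 : q ∈ cthickening δ P := by
      apply mem_cthickening_of_dist_le q p δ P hp
      rw [dist_comm]; exact hcon.le
    have h2 : q ∈ cthickening δ Q := self_subset_cthickening Q hq
    exact Set.disjoint_left.1 hδ' h1 h2
  -- attachment
  let ct : V → Prop := fun w => Convex ℝ (E ∩ ball w (4 * R))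
  let att : V → Set V → Prop := fun w X =>
    (ct w ∧ ∃ v ∈ X, dist v w < R) ∨ (¬ ct w ∧ w + s • (y - w) ∈ X)
  have hpd : ∀ w ∈ E, dist (w + s • (y - w)) w < R := by
    intro w hw
    rw [dist_eq_norm, add_sub_cancel_left, norm_smul, Real.norm_of_nonneg hs0.le]
    exact hsD w hw
  have hctsep : ∀ w, ct w → ∀ p ∈ P, ∀ q ∈ Q, p ∈ ball w (4 * R) → q ∈ ball w (4 * R) →
      False := by
    intro w hw p hp q hq hpb hqb
    have hG : Convex ℝ ((E ∩ ball w (4 * R)) ∩ {v | φ v ≤ t}) := by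
      apply hw.inter
      have := hφc.convex_le t
      simpa using this
    have hsub : (E ∩ ball w (4 * R)) ∩ {v | φ v ≤ t} ⊆ P ∪ Q := by
      rw [hPQ]; rintro v ⟨⟨h1, _⟩, h2⟩; exact ⟨h1, h2⟩
    have hp2 : φ p ≤ t := (hPQ ▸ Or.inl hp : p ∈ E ∩ {w | φ w ≤ t}).2
    have hq2 : φ q ≤ t := (hPQ ▸ Or.inr hq : q ∈ E ∩ {w | φ w ≤ t}).2
    exact preconn_sep hG.isPreconnected hP hQ hd hsub
      ⟨⟨hPE hp, hpb⟩, hp2⟩ hp ⟨⟨hQE hq, hqb⟩, hq2⟩ hq
  -- key claim
  have key : ∀ w ∈ E, ∀ w' ∈ E, dist w w' < min η₀ R → att w P → att w' Q → False := by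
    intro w hw w' hw' hdd haP haQ
    have hdη : dist w w' < η₀ := hdd.trans_le (min_le_left _ _)
    have hdR : dist w w' < R := hdd.trans_le (min_le_right _ _)
    rcases haP with ⟨hcw, v, hvP, hvd⟩ | ⟨hcw, hpP⟩
    · rcases haQ with ⟨hcw', v', hv'Q, hv'd⟩ | ⟨hcw', hpQ⟩
      · apply hctsep w hcw v hvP v' hv'Q
        · rw [mem_ball]; linarith
        · rw [mem_ball]
          have := dist_triangle v' w' w
          rw [dist_comm w' w] at this
          linarith
      · apply hctsep w hcw v hvP _ hpQ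
        · rw [mem_ball]; linarith
        · rw [mem_ball]
          have h1 := dist_triangle (w' + s • (y - w')) w' w
          have h2 := hpd w' hw'
          rw [dist_comm w' w] at h1
          linarith
    · rcases haQ with ⟨hcw', v', hv'Q, hv'd⟩ | ⟨hcw', hpQ⟩
      · apply hctsep w' hcw' _ hpP v' hv'Q
        · rw [mem_ball]
          have h1 := dist_triangle (w + s • (y - w)) w w'
          have h2 := hpd w hw
          linarith
        · rw [mem_ball]; linarith
      · have h1 := hη₀' _ hpP _ hpQ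
        have h2 : dist (w + s • (y - w)) (w' + s • (y - w')) = (1 - s) * dist w w' := by
          rw [dist_eq_norm, dist_eq_norm]
          have : w + s • (y - w) - (w' + s • (y - w')) = (1 - s) • (w - w') := by module
          rw [this, norm_smul, Real.norm_of_nonneg (by linarith)]
        have h3 : (1 - s) * dist w w' ≤ dist w w' := by
          have : 0 ≤ dist w w' := dist_nonneg
          nlinarith
        linarith
  have hcov : ∀ w ∈ M, att w P ∨ att w Q := by
    intro w hw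
    have hwE : w ∈ E := (hME hw).1
    by_cases hcw : ct w
    · obtain ⟨v, hvE, hvd, hvt⟩ := htM w hw
      have : v ∈ P ∪ Q := by rw [hPQ]; exact ⟨hvE, hvt⟩
      rcases this with h | h
      · left; left; exact ⟨hcw, v, h, hvd⟩
      · right; left; exact ⟨hcw, v, h, hvd⟩
    · have hg : Good E (ball w (4 * R)) y := (hRloc w hwE).resolve_left hcw
      have h1 : w + s • (y - w) ∈ E := by
        apply hg w hwE (mem_ball_self (by positivity)) s ⟨hs0.le, hs1.le⟩
        rw [mem_ball]; linarith [hpd w hwE]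
      have h2 : φ (w + s • (y - w)) ≤ t := by
        have := hconvy w s hs0.le hs1.le
        have h3 : φ w ≤ ts := (hME hw).2
        have h4 : (1 - s) * φ w ≤ (1 - s) * ts := mul_le_mul_of_nonneg_left h3 (by linarith)
        linarith
      have : w + s • (y - w) ∈ P ∪ Q := by rw [hPQ]; exact ⟨h1, h2⟩
      rcases this with h | h
      · left; right; exact ⟨hcw, h⟩
      · right; right; exact ⟨hcw, h⟩
  -- attachments of A and B
  have hAL : A ⊆ L := fun w hw => ⟨hAE hw, by rw [hA0 w hw]; exact hts⟩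
  have hBL : B ⊆ L := fun w hw => ⟨hBE hw, by rw [hB0 w hw]; exact hts⟩
  have hseg : ∀ w ∈ E, φ w = 0 → ¬ ct w → ∀ X Y : Set V, IsClosed X → IsClosed Y →
      Disjoint X Y → X ∪ Y = E ∩ {w | φ w ≤ t} → w ∈ X → w + s • (y - w) ∈ X := by
    intro w hwE hw0 hcw X Y hX hY hXY hXYE hwX
    have hg : Good E (ball w (4 * R)) y := (hRloc w hwE).resolve_left hcw
    have hsubset : (fun h : ℝ => w + h • (y - w)) '' Icc 0 s ⊆ X ∪ Y := by
      rintro _ ⟨h, hh, rfl⟩
      rw [hXYE]
      constructor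
      · apply hg w hwE (mem_ball_self (by positivity)) h ⟨hh.1, hh.2.trans hs1.le⟩
        rw [mem_ball]
        show dist (w + h • (y - w)) w < 4 * R
        rw [dist_eq_norm, add_sub_cancel_left, norm_smul, Real.norm_of_nonneg hh.1]
        have h1 : h * ‖y - w‖ ≤ s * ‖y - w‖ := mul_le_mul_of_nonneg_right hh.2 (norm_nonneg _)
        linarith [hsD w hwE]
      · have := hconvy w h hh.1 (hh.2.trans hs1.le)
        rw [hw0, mul_zero] at this
        exact this.trans ht0
    have hpre : IsPreconnected ((fun h : ℝ => w + h • (y - w)) '' Icc 0 s) :=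
      isPreconnected_Icc.image _ (by fun_prop)
    have hend : w + s • (y - w) ∈ (fun h : ℝ => w + h • (y - w)) '' Icc 0 s :=
      ⟨s, ⟨hs0.le, le_rfl⟩, rfl⟩
    have hstart : w ∈ (fun h : ℝ => w + h • (y - w)) '' Icc 0 s :=
      ⟨0, ⟨le_rfl, hs0.le⟩, by simp⟩
    rcases hsubset hend with h | h
    · exact h
    · exact (preconn_sep hpre hX hY hXY hsubset hstart hwX hend h).elim
  have hAatt : ∀ w ∈ A, att w P := by
    intro w hw
    by_cases hcw : ct w
    · left; exact ⟨hcw, w, hAP hw, by simpa using hR⟩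
    · right; exact ⟨hcw, hseg w (hAE hw) (hA0 w hw) hcw P Q hP hQ hd hPQ (hAP hw)⟩
  have hBatt : ∀ w ∈ B, att w Q := by
    intro w hw
    by_cases hcw : ct w
    · left; exact ⟨hcw, w, hBQ hw, by simpa using hR⟩
    · right; exact ⟨hcw, hseg w (hBE hw) (hB0 w hw) hcw Q P hQ hP hd.symm
        (by rw [union_comm]; exact hPQ) (hBQ hw)⟩
  -- the separation of M
  set PM : Set V := {w | w ∈ M ∧ att w P} with hPM
  set QM : Set V := {w | w ∈ M ∧ att w Q} with hQM
  have hηR : 0 < min η₀ R := lt_min hη₀ hR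
  have hPMcl : IsClosed PM := by
    rw [← closure_subset_iff_isClosed]
    intro w hw
    have hwM : w ∈ M := by
      have : closure PM ⊆ M := closure_minimal (fun _ h => h.1) isClosed_closure
      exact this hw
    refine ⟨hwM, (hcov w hwM).resolve_right fun hQw => ?_⟩
    obtain ⟨w', hw', hd'⟩ := Metric.mem_closure_iff.1 hw _ hηR
    exact key w' (hME hw'.1).1 w (hME hwM).1 (by rw [dist_comm]; exact hd') hw'.2 hQw
  have hQMcl : IsClosed QM := by
    rw [← closure_subset_iff_isClosed]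
    intro w hw
    have hwM : w ∈ M := by
      have : closure QM ⊆ M := closure_minimal (fun _ h => h.1) isClosed_closure
      exact this hw
    refine ⟨hwM, (hcov w hwM).resolve_left fun hPw => ?_⟩
    obtain ⟨w', hw', hd'⟩ := Metric.mem_closure_iff.1 hw _ hηR
    exact key w (hME hwM).1 w' (hME hw'.1).1 hd' hPw hw'.2
  refine ⟨PM ∪ N, QM, hPMcl.union hNcl, hQMcl, ?_, ?_, ?_, ?_⟩
  · rw [Set.disjoint_left]
    rintro w (hw | hw) hwQ
    · exact key w (hME hw.1).1 w (hME hw.1).1 (by simpa using hηR) hw.2 hwQ.2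
    · exact hw.2 hwQ.1
  · ext w
    constructor
    · rintro ((h | h) | h)
      · exact hME h.1
      · exact h.1
      · exact hME h.1
    · intro h
      by_cases hwM : w ∈ M
      · rcases hcov w hwM with h' | h'
        · left; left; exact ⟨hwM, h'⟩
        · right; exact ⟨hwM, h'⟩
      · left; right; exact ⟨h, hwM⟩
  · intro w hw
    left; exact ⟨subset_closure (hAL hw), hAatt w hw⟩
  · intro w hw
    exact ⟨subset_closure (hBL hw), hBatt w hw⟩

end Run7.h842.Star
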