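import Mathlib
import Pool.Agent.Run7.h842.StarC

/-!
Connectedness of `E ∩ K`, and its consequences.
-/

open Set Metric Topology

namespace Run7.h842.Star

variable {V : Type*} [NormedAddCommGroup V] [InnerProductSpace ℝ V]

theorem inter_preconnected [ProperSpace V] {E : Set V} {y : V} (hE : IsCompact E)
    (hEc : IsPreconnected E) (hloc : Loc E y) {K : Set V} (hK : IsClosed K)
    (hKc : Convex ℝ K) (hyK : y ∈ K) : IsPreconnected (E ∩ K) := by
  rw [isPreconnected_closed_iff]
  intro T T' hT hT' hsub hne hne'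
  by_contra hemp
  rw [Set.not_nonempty_iff_eq_empty] at hemp
  set φ : V → ℝ := fun w => infDist w K with hφdef
  have hφ : Continuous φ := continuous_infDist_pt K
  have hφc : ConvexOn ℝ univ φ := convexOn_infDist hK hKc ⟨y, hyK⟩
  have hφ0 : ∀ w, 0 ≤ φ w := fun w => infDist_nonneg
  have hφK : ∀ w ∈ K, φ w = 0 := fun w hw => infDist_zero_of_mem hw
  have hφK' : ∀ w, φ w ≤ 0 → w ∈ K := by
    intro w hw
    rw [hK.mem_iff_infDist_zero ⟨y, hyK⟩]
    exact le_antisymm hw (hφ0 w)
  set A : Set V := E ∩ K ∩ T with hA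
  set B : Set V := E ∩ K ∩ T' with hB
  have hAE : A ⊆ E := fun w hw => hw.1.1
  have hBE : B ⊆ E := fun w hw => hw.1.1
  have hA0 : ∀ w ∈ A, φ w = 0 := fun w hw => hφK w hw.1.2
  have hB0 : ∀ w ∈ B, φ w = 0 := fun w hw => hφK w hw.1.2
  obtain ⟨a, haEK, haT⟩ := hne
  obtain ⟨b, hbEK, hbT⟩ := hne'
  have haA : a ∈ A := ⟨haEK, haT⟩
  have hbB : b ∈ B := ⟨hbEK, hbT⟩
  have hSep0 : Sep E φ A B 0 := by
    refine ⟨A, B, (hE.isClosed.inter hK).inter hT, (hE.isClosed.inter hK).inter hT', ?_, ?_,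
      subset_rfl, subset_rfl⟩
    · rw [Set.disjoint_left]
      rintro w h1 h2
      have : w ∈ E ∩ K ∩ (T ∩ T') := ⟨h1.1, h1.2, h2.2⟩
      rw [hemp] at this; exact this
    · ext w
      constructor
      · rintro (h | h)
        · exact ⟨h.1.1, (hφK w h.1.2).le⟩
        · exact ⟨h.1.1, (hφK w h.1.2).le⟩
      · rintro ⟨h1, h2⟩
        have hwK : w ∈ K := hφK' w h2
        rcases hsub ⟨h1, hwK⟩ with h | h
        · left; exact ⟨⟨h1, hwK⟩, h⟩
        · right; exact ⟨⟨h1, hwK⟩, h⟩
  -- bound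
  obtain ⟨C, hC⟩ : ∃ C : ℝ, ∀ w ∈ E, φ w ≤ C := by
    obtain ⟨C, hC⟩ := hE.exists_bound_of_continuousOn (f := φ) hφ.continuousOn
    exact ⟨C, fun w hw => (le_abs_self _).trans (hC w hw)⟩
  have hnotC : ∀ t, C ≤ t → ¬ Sep E φ A B t := by
    rintro t ht ⟨P, Q, hP, hQ, hd, hPQ, hAP, hBQ⟩
    have hEt : E ∩ {w | φ w ≤ t} = E := by
      ext w; exact ⟨fun h => h.1, fun h => ⟨h, (hC w h).trans ht⟩⟩
    rw [hEt] at hPQ
    exact preconn_sep hEc hP hQ hd hPQ.ge (hAE haA) (hAP haA) (hBE hbB) (hBQ hbB)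
  set S : Set ℝ := {t | 0 ≤ t ∧ Sep E φ A B t} with hS
  have hSne : S.Nonempty := ⟨0, le_rfl, hSep0⟩
  have hSbdd : BddAbove S := ⟨C, fun t ht => by
    by_contra h
    push Not at h
    exact hnotC t h.le ht.2⟩
  set ts := sSup S with hts
  have hts0 : 0 < ts := by
    obtain ⟨ε, hε, hsep⟩ := Sep.open_right hE hφ hSep0
    have : (0:ℝ) + ε ∈ S := ⟨by linarith, hsep⟩
    have := le_csSup hSbdd this
    linarith
  have hbelow : ∀ t, 0 ≤ t → t < ts → Sep E φ A B t := by
    intro t ht0 htt
    obtain ⟨u, huS, htu⟩ := exists_lt_of_lt_csSup hSne htt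
    exact Sep.mono hφ (fun w hw => by rw [mem_ofPred, hA0 w hw]; exact ht0)
      (fun w hw => by rw [mem_ofPred, hB0 w hw]; exact ht0) htu.le huS.2
  have hSepts : Sep E φ A B ts :=
    push_down hE hloc hφ hφc hφ0 (hφK y hyK) hAE hBE hA0 hB0 hts0 hbelow
  obtain ⟨ε, hε, hsep⟩ := Sep.open_right hE hφ hSepts
  have : ts + ε ∈ S := ⟨by linarith, hsep⟩
  have := le_csSup hSbdd this
  linarith

/-- A preconnected subset of a segment containing both endpoints is the segment. -/
lemma segment_subset_of_preconnected {G : Set V} {x z : V} (hG : IsPreconnected G)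
    (hsub : G ⊆ segment ℝ x z) (hx : x ∈ G) (hz : z ∈ G) : segment ℝ x z ⊆ G := by
  intro p hp
  rw [segment_eq_image'] at hp
  obtain ⟨t, ht, rfl⟩ := hp
  have himg : IsPreconnected ((fun w => dist w x) '' G) := hG.image _ (by fun_prop)
  have h0 : (0:ℝ) ∈ (fun w => dist w x) '' G := ⟨x, hx, dist_self x⟩
  have h1 : dist z x ∈ (fun w => dist w x) '' G := ⟨z, hz, rfl⟩
  have hmem : t * dist z x ∈ (fun w => dist w x) '' G := by
    apply himg.ordConnected.out h0 h1
    constructor
    · exact mul_nonneg ht.1 dist_nonneg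
    · exact mul_le_of_le_one_left dist_nonneg ht.2
  obtain ⟨w, hwG, hw⟩ := hmem
  have hw' := hsub hwG
  rw [segment_eq_image'] at hw'
  obtain ⟨u, hu, rfl⟩ := hw'
  by_cases hxz : z = x
  · subst hxz; simpa using hx
  · have hpos : 0 < dist z x := dist_pos.2 hxz
    have : dist (x + u • (z - x)) x = u * dist z x := by
      rw [dist_eq_norm, add_sub_cancel_left, norm_smul, Real.norm_of_nonneg hu.1, dist_eq_norm]
    have h2 : u * dist z x = t * dist z x := by rw [← this]; exact hw
    have h3 : u = t := mul_right_cancel₀ hpos.ne' h2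
    subst h3; exact hwG

lemma sees_all [ProperSpace V] {E : Set V} {y : V} (hE : IsCompact E)
    (hEc : IsPreconnected E) (hloc : Loc E y) (hyE : y ∈ E) : StarConvex ℝ y E := by
  rw [starConvex_iff_segment_subset]
  intro x hx
  have hK : IsClosed (segment ℝ y x) := by
    rw [segment_eq_image']
    exact (isCompact_Icc.image (by fun_prop)).isClosed
  have hpre := inter_preconnected hE hEc hloc hK (convex_segment y x) (left_mem_segment ℝ y x)
  have := segment_subset_of_preconnected hpre inter_subset_right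
    ⟨hyE, left_mem_segment ℝ y x⟩ ⟨hx, right_mem_segment ℝ y x⟩
  exact this.trans inter_subset_left

/-- two-point lemma -/
lemma two_point [ProperSpace V] [FiniteDimensional ℝ V] {E : Set V} {y : V} (hE : IsCompact E)
    (hEc : IsPreconnected E) (hloc : Loc E y) {x₀ x₁ : V} (h₀ : x₀ ∈ E) (h₁ : x₁ ∈ E)
    {c₀ c₁ : ℝ} (hc₀ : 0 < c₀) (hc₁ : 0 < c₁) :
    ∃ w ∈ E, ∃ s : ℝ, 0 ≤ s ∧ w - y = s • (c₀ • (x₀ - y) + c₁ • (x₁ - y)) := by
  by_cases hy0 : x₀ = y
  · refine ⟨x₀, h₀, 0, le_rfl, ?_⟩
    rw [hy0]; simp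
  by_cases hli : LinearIndependent ℝ ![x₀ - y, x₁ - y]
  · -- linear functional
    obtain ⟨ℓ, hℓ0, hℓ1⟩ : ∃ ℓ : V →ₗ[ℝ] ℝ, ℓ (x₀ - y) = c₁ ∧ ℓ (x₁ - y) = -c₀ := by
      obtain ⟨f, hf⟩ := ((Module.Basis.span hli).constr ℝ ![c₁, -c₀]).exists_extend
      have hfi : ∀ i : Fin 2, f (![x₀ - y, x₁ - y] i) = ![c₁, -c₀] i := by
        intro i
        have h1 := congrArg (fun g => g ((Module.Basis.span hli) i)) hf
        rw [Module.Basis.constr_basis] at h1
        simp only [LinearMap.comp_apply, Submodule.subtype_apply,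
          Module.Basis.span_apply] at h1
        exact h1
      exact ⟨f, by simpa using hfi 0, by simpa using hfi 1⟩
    have hℓc : Continuous ℓ := ℓ.continuous_of_finiteDimensional
    set K : Set V := convexHull ℝ {y, x₀, x₁} with hK
    have hKcomp : IsCompact K := (Set.toFinite _).isCompact_convexHull ℝ
    have hKy : y ∈ K := subset_convexHull ℝ _ (by simp)
    have hK0 : x₀ ∈ K := subset_convexHull ℝ _ (by simp)
    have hK1 : x₁ ∈ K := subset_convexHull ℝ _ (by simp)
    have hpre := inter_preconnected hE hEc hloc hKcomp.isClosed (convex_convexHull ℝ _) hKy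
    have himg : IsPreconnected ((fun w => ℓ (w - y)) '' (E ∩ K)) :=
      hpre.image _ (by fun_prop)
    have ha : c₁ ∈ (fun w => ℓ (w - y)) '' (E ∩ K) := ⟨x₀, ⟨h₀, hK0⟩, hℓ0⟩
    have hb : -c₀ ∈ (fun w => ℓ (w - y)) '' (E ∩ K) := ⟨x₁, ⟨h₁, hK1⟩, hℓ1⟩
    obtain ⟨w, ⟨hwE, hwK⟩, hw⟩ := himg.ordConnected.out hb ha
      (⟨by linarith, hc₁.le⟩ : (0:ℝ) ∈ Icc (-c₀) c₁)
    have hw : ℓ (w - y) = 0 := hw
    rw [hK, convexHull_insert (by simp), convexHull_pair] at hwK
    simp only [convexJoin_singleton_left, mem_iUnion] at hwK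
    obtain ⟨z, hz, hwz⟩ := hwK
    rw [segment_eq_image'] at hz hwz
    obtain ⟨u, hu, rfl⟩ := hz
    obtain ⟨v, hv, rfl⟩ := hwz
    -- w = y + v • (x₀ + u • (x₁ - x₀) - y)
    have e1 : y + v • (x₀ + u • (x₁ - x₀) - y) - y
        = (v * (1 - u)) • (x₀ - y) + (v * u) • (x₁ - y) := by module
    rw [e1, map_add, map_smul, map_smul, hℓ0, hℓ1] at hw
    simp only [smul_eq_mul] at hw
    refine ⟨_, hwE, v * u / c₁, by have := hv.1; have := hu.1; positivity, ?_⟩
    rw [e1]
    have e2 : v * (1 - u) = v * u / c₁ * c₀ := by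
      field_simp
      linarith
    have e3 : v * u = v * u / c₁ * c₁ := by field_simp
    rw [smul_add, smul_smul, smul_smul, ← e2, ← e3]
  · -- dependent
    rw [LinearIndependent.pair_iff' (sub_ne_zero.2 hy0)] at hli
    push Not at hli
    obtain ⟨a, ha⟩ := hli
    rcases le_or_gt 0 a with h | h
    · refine ⟨x₀, h₀, 1 / (c₀ + c₁ * a), by positivity, ?_⟩
      rw [← ha, smul_smul, ← add_smul, smul_smul]
      have : 1 / (c₀ + c₁ * a) * (c₀ + c₁ * a) = 1 := by
        have : 0 < c₀ + c₁ * a := by positivity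
        field_simp
      rw [this, one_smul]
    · -- y is on the segment
      have hyseg : y ∈ segment ℝ x₀ x₁ := by
        rw [segment_eq_image']
        refine ⟨1 / (1 - a), ⟨by have : 0 < 1 - a := by linarith
                                 positivity, ?_⟩, ?_⟩
        · rw [div_le_one (by linarith)]; linarith
        · have h1a : (1 - a) ≠ 0 := by linarith
          have : x₁ - x₀ = (a - 1) • (x₀ - y) := by
            rw [sub_smul, ha, one_smul]; abel
          show x₀ + (1 / (1 - a)) • (x₁ - x₀) = y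
          rw [this, smul_smul]
          have : 1 / (1 - a) * (a - 1) = -1 := by field_simp; ring
          rw [this]; module
      have hKcl : IsClosed (segment ℝ x₀ x₁) := by
        rw [segment_eq_image']
        exact (isCompact_Icc.image (by fun_prop)).isClosed
      have hpre := inter_preconnected hE hEc hloc hKcl (convex_segment x₀ x₁) hyseg
      have := segment_subset_of_preconnected hpre inter_subset_right
        ⟨h₀, left_mem_segment ℝ x₀ x₁⟩ ⟨h₁, right_mem_segment ℝ x₀ x₁⟩
      exact ⟨y, (this hyseg).1, 0, le_rfl, by simp⟩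

theorem mem_of_mem_convexHull [ProperSpace V] [FiniteDimensional ℝ V] {E : Set V} {y : V}
    (hE : IsCompact E) (hEc : IsPreconnected E) (hloc : Loc E y) (hy : y ∈ convexHull ℝ E) :
    y ∈ E := by
  by_contra hyE
  set C : Set V := {w | ∃ σ : ℝ, 0 < σ ∧ y + σ • (w - y) ∈ E} with hC
  have hEC : E ⊆ C := fun w hw => ⟨1, one_pos, by simpa using hw⟩
  have hCc : Convex ℝ C := by
    rw [convex_iff_forall_pos]
    rintro w₀ ⟨σ₀, hσ₀, hw₀⟩ w₁ ⟨σ₁, hσ₁, hw₁⟩ a b ha hb hab
    obtain ⟨w, hwE, s, hs, hws⟩ := two_point hE hEc hloc hw₀ hw₁ (c₀ := a / σ₀) (c₁ := b / σ₁)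
      (by positivity) (by positivity)
    have e : (a / σ₀) • (y + σ₀ • (w₀ - y) - y) + (b / σ₁) • (y + σ₁ • (w₁ - y) - y)
        = a • w₀ + b • w₁ - y := by
      rw [add_sub_cancel_left, add_sub_cancel_left, smul_smul, smul_smul,
        div_mul_cancel₀ _ hσ₀.ne', div_mul_cancel₀ _ hσ₁.ne', smul_sub, smul_sub]
      have : y = a • y + b • y := by rw [← add_smul, hab, one_smul]
      conv_rhs => rw [this]
      abel
    rw [e] at hws
    have hs0 : 0 < s := by
      rcases lt_or_eq_of_le hs with h | h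
      · exact h
      · exfalso
        rw [← h, zero_smul, sub_eq_zero] at hws
        rw [hws] at hwE; exact hyE hwE
    refine ⟨s, hs0, ?_⟩
    rw [← hws]; simpa using hwE
  have hyC : y ∈ C := convexHull_min hEC hCc hy
  obtain ⟨σ, _, hσ⟩ := hyC
  apply hyE
  simpa using hσ

/-- The convex hull of a compact set in a finite-dimensional space is compact. -/
theorem isCompact_convexHull_of_finiteDimensional [FiniteDimensional ℝ V] {E : Set V}
    (hE : IsCompact E) : IsCompact (convexHull ℝ E) := by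
  classical
  rcases E.eq_empty_or_nonempty with rfl | ⟨e₀, he₀⟩
  · simp
  set n := Module.finrank ℝ V + 1 with hn
  let f : (Fin n → ℝ) × (Fin n → V) → V := fun p => ∑ i, p.1 i • p.2 i
  have hf : Continuous f := by fun_prop
  have hcomp : IsCompact (stdSimplex ℝ (Fin n) ×ˢ (Set.pi univ fun _ : Fin n => E)) :=
    (isCompact_stdSimplex (𝕜 := ℝ) (ι := Fin n)).prod (isCompact_univ_pi fun _ => hE)
  have himg : f '' (stdSimplex ℝ (Fin n) ×ˢ (Set.pi univ fun _ : Fin n => E))
      = convexHull ℝ E := by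
    apply subset_antisymm
    · rintro _ ⟨⟨w, z⟩, ⟨hw, hz⟩, rfl⟩
      exact (convex_convexHull ℝ E).sum_mem (fun i _ => hw.1 i) hw.2
        (fun i _ => subset_convexHull ℝ E (hz i (mem_univ i)))
    · intro x hx
      obtain ⟨ι, _, z, w, hz, hai, hw, hws, hx⟩ := eq_pos_convex_span_of_mem_convexHull hx
      have hcard : Fintype.card ι ≤ n := by
        have := hai.card_le_finrank_succ
        have h2 : Module.finrank ℝ (vectorSpan ℝ (Set.range z)) ≤ Module.finrank ℝ V :=
          Submodule.finrank_le _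
        omega
      obtain ⟨g⟩ : Nonempty (ι ↪ Fin n) := by
        apply Function.Embedding.nonempty_of_card_le
        simpa using hcard
      let w' : Fin n → ℝ := Function.extend g w 0
      let z' : Fin n → V := Function.extend g z (fun _ => e₀)
      have hginj := g.injective
      have hw'g : ∀ i, w' (g i) = w i := fun i => hginj.extend_apply _ _ _
      have hz'g : ∀ i, z' (g i) = z i := fun i => hginj.extend_apply _ _ _
      have hw'0 : ∀ j, (¬ ∃ i, g i = j) → w' j = 0 := fun j hj => by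
        simp [w', Function.extend_apply' _ _ _ hj]
      refine ⟨(w', z'), ⟨⟨?_, ?_⟩, ?_⟩, ?_⟩
      · intro j
        by_cases hj : ∃ i, g i = j
        · obtain ⟨i, rfl⟩ := hj
          show 0 ≤ w' (g i)
          rw [hw'g]; exact (hw i).le
        · show 0 ≤ w' j
          rw [hw'0 j hj]
      · show ∑ j, w' j = 1
        rw [← hws]
        symm
        apply Fintype.sum_of_injective g hginj
        · intro j hj
          exact hw'0 j (by simpa using hj)
        · intro i; rw [hw'g]
      · intro j _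
        by_cases hj : ∃ i, g i = j
        · obtain ⟨i, rfl⟩ := hj
          show z' (g i) ∈ E
          rw [hz'g]; exact hz ⟨i, rfl⟩
        · show z' j ∈ E
          simp only [z']
          rw [Function.extend_apply' _ _ _ hj]; exact he₀
      · show ∑ j, w' j • z' j = x
        rw [← hx]
        symm
        apply Fintype.sum_of_injective g hginj
        · intro j hj
          rw [hw'0 j (by simpa using hj), zero_smul]
        · intro i; rw [hw'g, hz'g]
  rw [← himg]
  exact hcomp.image hf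

end Run7.h842.Star
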