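import Mathlib
import Pool.Agent.Run7.h842.StarD

/-!
The Krasnosel'skii-type theorem for points of local non-convexity.
-/

open Set Metric Topology

namespace Run7.h842.Star

variable {V : Type*} [NormedAddCommGroup V] [InnerProductSpace ℝ V]

theorem starshaped_of_clearly_visible [FiniteDimensional ℝ V] {E : Set V} (hE : IsCompact E)
    (hc : IsConnected E) {n : ℕ} (hn : Module.finrank ℝ V + 1 ≤ n)
    (hC : ∀ x : Fin n → V,
      (∀ i, x i ∈ frontier E ∧ ∀ r > 0, ¬ Convex ℝ (ball (x i) r ∩ E)) →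
      ∃ y ∈ E, ∀ i, ∃ r > 0, ∀ z ∈ ball (x i) r ∩ E, segment ℝ y z ⊆ E) :
    ∃ y ∈ E, ∀ x ∈ E, segment ℝ y x ⊆ E := by
  classical
  haveI : ProperSpace V := FiniteDimensional.proper ℝ V
  set N : Set V := {z | z ∈ frontier E ∧ ∀ r > 0, ¬ Convex ℝ (ball z r ∩ E)} with hN
  have hEcl := hE.isClosed
  have hNE : N ⊆ E := fun z hz => hEcl.frontier_subset hz.1
  have hNcl : IsClosed N := by
    rw [← closure_subset_iff_isClosed]
    intro z hz
    refine ⟨closure_minimal (fun w hw => hw.1) isClosed_frontier hz, fun r hr hconv => ?_⟩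
    obtain ⟨w, hwN, hwd⟩ := Metric.mem_closure_iff.1 hz (r / 2) (by positivity)
    apply hwN.2 (r / 2) (by positivity)
    have hsub : ball w (r / 2) ⊆ ball z r := by
      intro v hv
      rw [mem_ball] at hv ⊢
      have := dist_triangle v w z
      rw [dist_comm w z] at this
      linarith
    have : ball w (r / 2) ∩ E = (ball z r ∩ E) ∩ ball w (r / 2) := by
      ext v; constructor
      · rintro ⟨h1, h2⟩; exact ⟨⟨hsub h1, h2⟩, h1⟩
      · rintro ⟨⟨_, h2⟩, h3⟩; exact ⟨h3, h2⟩
    rw [this]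
    exact hconv.inter (convex_ball _ _)
  have hNcomp : IsCompact N := hE.of_isClosed_subset hNcl hNE
  -- uniform radius
  obtain ⟨r₀, hr₀, hunif⟩ : ∃ r > 0, ∀ x ∈ Set.pi univ (fun _ : Fin n => N),
      ∃ y ∈ E, ∀ i, ∀ z ∈ ball (x i) r ∩ E, segment ℝ y z ⊆ E := by
    have hT : IsCompact (Set.pi univ (fun _ : Fin n => N)) := isCompact_univ_pi fun _ => hNcomp
    refine hT.induction_on (p := fun S => ∃ r > 0, ∀ x ∈ S,
      ∃ y ∈ E, ∀ i, ∀ z ∈ ball (x i) r ∩ E, segment ℝ y z ⊆ E) ?_ ?_ ?_ ?_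
    · exact ⟨1, one_pos, fun x hx => absurd hx (notMem_empty x)⟩
    · rintro s t hst ⟨r, hr, h⟩
      exact ⟨r, hr, fun x hx => h x (hst hx)⟩
    · rintro s t ⟨r, hr, h⟩ ⟨r', hr', h'⟩
      refine ⟨min r r', lt_min hr hr', ?_⟩
      rintro x (hx | hx)
      · obtain ⟨y, hy, hyx⟩ := h x hx
        exact ⟨y, hy, fun i z hz => hyx i z
          ⟨ball_subset_ball (min_le_left _ _) hz.1, hz.2⟩⟩
      · obtain ⟨y, hy, hyx⟩ := h' x hx
        exact ⟨y, hy, fun i z hz => hyx i z
          ⟨ball_subset_ball (min_le_right _ _) hz.1, hz.2⟩⟩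
    · intro x hx
      obtain ⟨y, hy, hyx⟩ := hC x (fun i => hx i (mem_univ i))
      choose ρ hρ hρ' using hyx
      obtain ⟨r, hr, hrρ⟩ : ∃ r > 0, ∀ i, r ≤ ρ i := by
        have h1 : ∀ᶠ r in 𝓝[>] (0:ℝ), ∀ i, r ≤ ρ i := by
          rw [Filter.eventually_all]
          intro i
          filter_upwards [Ioc_mem_nhdsGT (hρ i)] with r hr
          exact hr.2
        obtain ⟨r, hr1, hr2⟩ := (h1.and self_mem_nhdsWithin).exists
        exact ⟨r, hr2, hr1⟩
      refine ⟨ball x (r / 2), mem_nhdsWithin_of_mem_nhds (ball_mem_nhds x (by positivity)),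
        r / 2, by positivity, ?_⟩
      intro x' hx'
      refine ⟨y, hy, fun i z hz => hρ' i z ⟨?_, hz.2⟩⟩
      have h1 : dist (x' i) (x i) < r / 2 := lt_of_le_of_lt (dist_le_pi_dist x' x i) hx'
      have h2 : dist z (x' i) < r / 2 := hz.1
      rw [mem_ball]
      have := dist_triangle z (x' i) (x i)
      linarith [hrρ i]
  -- local structure
  have hlocal : ∀ y : V, (∀ z ∈ N, Good E (ball z r₀) y) → Loc E y := by
    intro y hy w hw
    by_cases hwN : w ∈ N
    · exact ⟨r₀, hr₀, Or.inr (hy w hwN)⟩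
    · by_cases hwf : w ∈ frontier E
      · have : ∃ r > 0, Convex ℝ (ball w r ∩ E) := by
          by_contra hcon
          push Not at hcon
          exact hwN ⟨hwf, hcon⟩
        obtain ⟨r, hr, hcv⟩ := this
        exact ⟨r, hr, Or.inl (by rw [inter_comm]; exact hcv)⟩
      · have hwi : w ∈ interior E := by
          by_contra hcon
          exact hwf (by rw [hEcl.frontier_eq]; exact ⟨hw, hcon⟩)
        obtain ⟨r, hr, hsub⟩ := Metric.mem_nhds_iff.1 (mem_interior_iff_mem_nhds.1 hwi)
        refine ⟨r, hr, Or.inl ?_⟩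
        rw [inter_eq_self_of_subset_right hsub]
        exact convex_ball w r
  obtain ⟨y, hyE, hyN⟩ : ∃ y ∈ E, ∀ z ∈ N, Good E (ball z r₀) y := by
    rcases N.eq_empty_or_nonempty with hNe | ⟨z₀, hz₀⟩
    · obtain ⟨y, hy⟩ := hc.nonempty
      exact ⟨y, hy, fun z hz => by rw [hNe] at hz; exact absurd hz (notMem_empty z)⟩
    · let F : N → Set V := fun z => {y | Good E (ball (z : V) r₀) y} ∩ convexHull ℝ E
      have hFc : ∀ z, Convex ℝ (F z) := fun z =>
        (convex_good hEcl isOpen_ball (convex_ball _ _)).inter (convex_convexHull ℝ E)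
      have hFk : ∀ z, IsCompact (F z) := fun z =>
        (isCompact_convexHull_of_finiteDimensional hE).inter_left
          (isClosed_good hEcl isOpen_ball)
      have hFi : ∀ I : Finset N, I.card ≤ Module.finrank ℝ V + 1 →
          (⋂ i ∈ I, F i).Nonempty := by
        intro I hI
        have hIn : Fintype.card I ≤ Fintype.card (Fin n) := by
          rw [Fintype.card_coe, Fintype.card_fin]; exact hI.trans hn
        obtain ⟨g⟩ := Function.Embedding.nonempty_of_card_le hIn
        let x : Fin n → V := Function.extend g (fun i : I => ((i : N) : V)) (fun _ => z₀)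
        have hxN : ∀ j, x j ∈ N := by
          intro j
          by_cases hj : ∃ i, g i = j
          · obtain ⟨i, rfl⟩ := hj
            simp only [x]
            rw [g.injective.extend_apply]
            exact i.1.2
          · simp only [x]
            rw [Function.extend_apply' _ _ _ hj]
            exact hz₀
        obtain ⟨y, hy, hyx⟩ := hunif x (fun j _ => hxN j)
        refine ⟨y, ?_⟩
        rw [mem_iInter₂]
        intro i hi
        refine ⟨?_, subset_convexHull ℝ E hy⟩
        intro v hvE hvb t ht hvt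
        have hxi : x (g ⟨i, hi⟩) = (i : V) := by
          simp only [x]
          rw [g.injective.extend_apply]
        have h1 := hyx (g ⟨i, hi⟩) v ⟨by rw [hxi]; exact hvb, hvE⟩
        apply h1
        rw [segment_symm, segment_eq_image']
        exact ⟨t, ht, rfl⟩
      obtain ⟨y, hy⟩ := Convex.helly_theorem_compact' hFc hFk hFi
      rw [mem_iInter] at hy
      have hyN : ∀ z ∈ N, Good E (ball z r₀) y := fun z hz => (hy ⟨z, hz⟩).1
      have hyH : y ∈ convexHull ℝ E := (hy ⟨z₀, hz₀⟩).2
      exact ⟨y, mem_of_mem_convexHull hE hc.isPreconnected (hlocal y hyN) hyH, hyN⟩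
  have hstar := sees_all hE hc.isPreconnected (hlocal y hyN) hyE
  exact ⟨y, hyE, fun x hx => (starConvex_iff_segment_subset.1 hstar) hx⟩

end Run7.h842.Star
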