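import Mathlib

/-!
Multiple zeta-star values: the periodic sequences `(2, 1, …, 1)` give the integers.
-/

open Finset Filter Topology

namespace Run7.h842.Eta

/-- the summand -/
noncomputable def term {r : ℕ} (k : Fin r → ℕ) (n : Fin r → ℕ) : ℝ := ∏ i, ((n i : ℝ) ^ (k i))⁻¹

/-- antitone tuples with entries in `[1, N]` -/
def tup (r N : ℕ) : Finset (Fin r → ℕ) :=
  (Fintype.piFinset fun _ => Icc 1 N).filter Antitone

/-- truncated sums -/
noncomputable def S : ℕ → (ℕ → ℕ) → ℕ → ℝ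
  | 0, _, _ => 1
  | r + 1, k, N => ∑ m ∈ Icc 1 N, ((m : ℝ) ^ (k 0))⁻¹ * S r (fun i => k (i + 1)) m

lemma antitone_cons {r : ℕ} {m : ℕ} {n : Fin r → ℕ} :
    Antitone (Fin.cons m n : Fin (r + 1) → ℕ) ↔ Antitone n ∧ ∀ i, n i ≤ m := by
  constructor
  · intro h
    refine ⟨fun i j hij => ?_, fun i => ?_⟩
    · have := h (Fin.succ_le_succ_iff.2 hij)
      simpa using this
    · have := h (Fin.zero_le i.succ)
      simpa using this
  · rintro ⟨h1, h2⟩ i j hij
    induction i using Fin.cases with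
    | zero =>
      induction j using Fin.cases with
      | zero => exact le_rfl
      | succ j => simpa using h2 j
    | succ i =>
      induction j using Fin.cases with
      | zero => exact absurd hij (by simp)
      | succ j => simpa using h1 (Fin.succ_le_succ_iff.1 hij)

lemma mem_tup {r N : ℕ} {n : Fin r → ℕ} :
    n ∈ tup r N ↔ Antitone n ∧ ∀ i, 1 ≤ n i ∧ n i ≤ N := by
  simp [tup, and_comm]

lemma S_eq (r : ℕ) : ∀ (k : ℕ → ℕ) (N : ℕ),
    S r k N = ∑ n ∈ tup r N, term (fun i : Fin r => k i) n := by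
  induction r with
  | zero =>
    intro k N
    have : tup 0 N = {fun i => i.elim0} := by
      ext n; simp [mem_tup, Subsingleton.elim n (fun i => i.elim0), Antitone]
    rw [this]; simp [S, term]
  | succ r ih =>
    intro k N
    rw [S]
    have h1 : ∀ m ∈ Icc 1 N, ((m : ℝ) ^ (k 0))⁻¹ * S r (fun i => k (i + 1)) m
        = ∑ n ∈ tup r m, ((m : ℝ) ^ (k 0))⁻¹ * term (fun i : Fin r => k (i + 1)) n := by
      intro m _
      rw [ih, Finset.mul_sum]
    rw [Finset.sum_congr rfl h1, Finset.sum_sigma']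
    refine Finset.sum_bij' (fun p _ => (Fin.cons p.1 p.2 : Fin (r + 1) → ℕ))
      (fun n _ => ⟨n 0, fun i => n i.succ⟩) ?_ ?_ ?_ ?_ ?_
    · rintro ⟨m, n⟩ h
      simp only [Finset.mem_sigma, Finset.mem_Icc, mem_tup] at h
      rw [mem_tup, antitone_cons]
      refine ⟨⟨h.2.1, fun i => (h.2.2 i).2⟩, ?_⟩
      intro i
      induction i using Fin.cases with
      | zero => exact h.1
      | succ i =>
        simp only [Fin.cons_succ]
        exact ⟨(h.2.2 i).1, (h.2.2 i).2.trans h.1.2⟩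
    · intro n h
      rw [mem_tup] at h
      simp only [Finset.mem_sigma, Finset.mem_Icc, mem_tup]
      refine ⟨h.2 0, fun i j hij => h.1 (Fin.succ_le_succ_iff.2 hij), fun i => ⟨(h.2 _).1, ?_⟩⟩
      exact h.1 (Fin.zero_le _)
    · rintro ⟨m, n⟩ h
      simp
    · intro n h
      ext i
      induction i using Fin.cases with
      | zero => simp
      | succ i => simp
    · rintro ⟨m, n⟩ h
      simp only [term]
      rw [Fin.prod_univ_succ]
      simp

lemma S_nonneg (r : ℕ) : ∀ (k : ℕ → ℕ) (N : ℕ), 0 ≤ S r k N := by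
  intro k N
  rw [S_eq]
  exact Finset.sum_nonneg fun n _ => Finset.prod_nonneg fun i _ => by positivity

lemma S_le (r : ℕ) : ∀ (k : ℕ → ℕ) (N : ℕ), (∀ i, 1 ≤ k i) → 1 ≤ N → S r k N ≤ N := by
  induction r with
  | zero => intro k N _ hN; simp only [S]; exact_mod_cast hN
  | succ r ih =>
    intro k N hk hN
    rw [S]
    calc ∑ m ∈ Icc 1 N, ((m : ℝ) ^ (k 0))⁻¹ * S r (fun i => k (i + 1)) m
        ≤ ∑ m ∈ Icc 1 N, (1 : ℝ) := by
          apply Finset.sum_le_sum
          intro m hm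
          have hm1 : 1 ≤ m := (Finset.mem_Icc.1 hm).1
          have hm0 : (0:ℝ) < m := by exact_mod_cast hm1
          have hm1' : (1:ℝ) ≤ m := by exact_mod_cast hm1
          have h1 : S r (fun i => k (i + 1)) m ≤ m := ih _ m (fun i => hk _) hm1
          have h2 : ((m : ℝ) ^ (k 0))⁻¹ ≤ (m : ℝ)⁻¹ := by
            apply inv_anti₀ hm0
            exact le_self_pow₀ hm1' (by have := hk 0; omega)
          calc ((m : ℝ) ^ (k 0))⁻¹ * S r (fun i => k (i + 1)) m ≤ (m : ℝ)⁻¹ * m :=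
                mul_le_mul h2 h1 (S_nonneg _ _ _) (by positivity)
            _ = 1 := inv_mul_cancel₀ hm0.ne'
      _ = N := by simp

lemma S_mono_r (r : ℕ) : ∀ (k : ℕ → ℕ) (N : ℕ), 1 ≤ N → S r k N ≤ S (r + 1) k N := by
  induction r with
  | zero =>
    intro k N hN
    rw [S, S]
    calc (1:ℝ) = (((1:ℕ) : ℝ) ^ (k 0))⁻¹ * S 0 (fun i => k (i + 1)) 1 := by simp [S]
      _ ≤ ∑ m ∈ Icc 1 N, ((m : ℝ) ^ (k 0))⁻¹ * S 0 (fun i => k (i + 1)) m := by
        apply Finset.single_le_sum (f := fun m : ℕ => ((m : ℝ) ^ (k 0))⁻¹ * S 0 (fun i => k (i + 1)) m)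
        · intro m _; exact mul_nonneg (by positivity) (S_nonneg _ _ _)
        · simpa using hN
  | succ r ih =>
    intro k N hN
    rw [S, S]
    apply Finset.sum_le_sum
    intro m hm
    exact mul_le_mul_of_nonneg_left (ih _ m (Finset.mem_Icc.1 hm).1) (by positivity)

lemma S_mono (k : ℕ → ℕ) (N : ℕ) (hN : 1 ≤ N) : Monotone fun r => S r k N :=
  monotone_nat_of_le_succ fun r => S_mono_r r k N hN

/-- the limit of the truncated sums -/
noncomputable def F (k : ℕ → ℕ) (N : ℕ) : ℝ := ⨆ r, S r k N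

lemma bdd (k : ℕ → ℕ) (hk : ∀ i, 1 ≤ k i) (N : ℕ) (hN : 1 ≤ N) :
    BddAbove (Set.range fun r => S r k N) := by
  refine ⟨N, ?_⟩
  rintro _ ⟨r, rfl⟩
  exact S_le r k N hk hN

lemma tendsto_S (k : ℕ → ℕ) (hk : ∀ i, 1 ≤ k i) (N : ℕ) (hN : 1 ≤ N) :
    Tendsto (fun r => S r k N) atTop (𝓝 (F k N)) :=
  tendsto_atTop_ciSup (S_mono k N hN) (bdd k hk N hN)

lemma F_rec (k : ℕ → ℕ) (hk : ∀ i, 1 ≤ k i) (N : ℕ) (hN : 1 ≤ N) :
    F k N = ∑ m ∈ Icc 1 N, ((m : ℝ) ^ (k 0))⁻¹ * F (fun i => k (i + 1)) m := by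
  have h1 : Tendsto (fun r => S (r + 1) k N) atTop (𝓝 (F k N)) :=
    (tendsto_S k hk N hN).comp (tendsto_add_atTop_nat 1)
  have h2 : Tendsto (fun r => S (r + 1) k N) atTop
      (𝓝 (∑ m ∈ Icc 1 N, ((m : ℝ) ^ (k 0))⁻¹ * F (fun i => k (i + 1)) m)) := by
    simp only [S]
    apply tendsto_finsetSum
    intro m hm
    exact (tendsto_S _ (fun i => hk _) m (Finset.mem_Icc.1 hm).1).const_mul _
  exact tendsto_nhds_unique h1 h2

lemma F_one (k : ℕ → ℕ) (hk : ∀ i, 1 ≤ k i) : F k 1 = 1 := by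
  have h : ∀ r, S r k 1 = 1 := by
    intro r
    induction r generalizing k with
    | zero => rfl
    | succ r ih => rw [S]; simp [ih _ (fun i => hk _)]
  simp [F, h]

lemma F_succ (k : ℕ → ℕ) (hk : ∀ i, 1 ≤ k i) (N : ℕ) (hN : 1 ≤ N) :
    F k (N + 1) = F k N + (((N + 1 : ℕ) : ℝ) ^ (k 0))⁻¹ * F (fun i => k (i + 1)) (N + 1) := by
  rw [F_rec k hk (N + 1) (by omega), F_rec k hk N hN, Finset.sum_Icc_succ_top (by omega)]

lemma one_le_F (k : ℕ → ℕ) (hk : ∀ i, 1 ≤ k i) (N : ℕ) (hN : 1 ≤ N) : 1 ≤ F k N := by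
  have : S 0 k N ≤ F k N := le_ciSup (bdd k hk N hN) 0
  simpa [S] using this

lemma F_mono (k : ℕ → ℕ) (hk : ∀ i, 1 ≤ k i) {M N : ℕ} (hM : 1 ≤ M) (hMN : M ≤ N) :
    F k M ≤ F k N := by
  rw [F_rec k hk M hM, F_rec k hk N (hM.trans hMN)]
  apply Finset.sum_le_sum_of_subset_of_nonneg
  · exact Finset.Icc_subset_Icc_right hMN
  · intro m hm _
    have := one_le_F (fun i => k (i + 1)) (fun i => hk _) m (Finset.mem_Icc.1 hm).1
    positivity

/-- the periodic sequence `2, 1, …, 1, 2, 1, …` of period `p` -/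
def per (p : ℕ) (i : ℕ) : ℕ := if i % p = 0 then 2 else 1

lemma one_le_per (p i : ℕ) : 1 ≤ per p i := by unfold per; split_ifs <;> omega

lemma per_add (p i : ℕ) : per p (i + p) = per p i := by simp [per]

/-- the limit functions of the shifted periodic sequence -/
noncomputable def G (p j N : ℕ) : ℝ := F (fun i => per p (i + j)) N

lemma G_period (p j N : ℕ) : G p (j + p) N = G p j N := by
  unfold G
  congr 1
  ext i
  rw [← add_assoc, per_add]

lemma G_succ (p j N : ℕ) (hN : 1 ≤ N) :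
    G p j (N + 1) = G p j N + (((N + 1 : ℕ) : ℝ) ^ (per p j))⁻¹ * G p (j + 1) (N + 1) := by
  unfold G
  rw [F_succ _ (fun i => one_le_per _ _) N hN]
  simp only [zero_add]
  congr 3
  ext i
  congr 1
  ring

lemma G_one (p j : ℕ) : G p j 1 = 1 := F_one _ (fun i => one_le_per _ _)

lemma one_le_G (p j N : ℕ) (hN : 1 ≤ N) : 1 ≤ G p j N := one_le_F _ (fun i => one_le_per _ _) N hN

lemma invariant (p : ℕ) (hp : 1 ≤ p) : ∀ N : ℕ, 1 ≤ N →
    G p 0 N + (∑ j ∈ range p, G p j N) / N = p + 1 := by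
  intro N hN
  induction N, hN using Nat.le_induction with
  | base => simp [G_one]; ring
  | succ N hN ih =>
    rw [← ih]
    set M : ℕ := N + 1 with hM
    have hMpos : (0:ℝ) < (M : ℝ) := by positivity
    have hNpos : (0:ℝ) < (N : ℝ) := by exact_mod_cast hN
    have hMN : (M : ℝ) = N + 1 := by rw [hM]; push_cast; ring
    have hstep : ∀ j ∈ range p, G p j M - G p j N
        = (M : ℝ)⁻¹ * G p (j + 1) M
          + (if j = 0 then (((M : ℝ) ^ 2)⁻¹ - (M : ℝ)⁻¹) * G p 1 M else 0) := by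
      intro j hj
      have hjp : j < p := Finset.mem_range.1 hj
      rw [hM, G_succ p j N hN, ← hM]
      by_cases h0 : j = 0
      · subst h0
        simp [per]
        ring
      · have : per p j = 1 := by simp [per, Nat.mod_eq_of_lt hjp, h0]
        rw [this]; simp [h0]
    have hsum := Finset.sum_congr rfl hstep
    rw [Finset.sum_sub_distrib, Finset.sum_add_distrib, ← Finset.mul_sum,
      Finset.sum_ite_eq' (range p) 0, if_pos (Finset.mem_range.2 hp)] at hsum
    have hcyc : ∑ j ∈ range p, G p (j + 1) M = ∑ j ∈ range p, G p j M := by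
      have h1 := Finset.sum_range_succ (fun j => G p j M) p
      have h2 := Finset.sum_range_succ' (fun j => G p j M) p
      have h3 : G p p M = G p 0 M := by have := G_period p 0 M; simpa using this
      linarith
    rw [hcyc] at hsum
    have h0 : G p 0 M = G p 0 N + ((M : ℝ) ^ 2)⁻¹ * G p 1 M := by
      have := G_succ p 0 N hN
      rw [← hM] at this
      rw [this]
      simp [per]
    rw [h0]
    set SM := ∑ j ∈ range p, G p j M
    set SN := ∑ j ∈ range p, G p j N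
    have hSN : SN = SM - (M : ℝ)⁻¹ * SM - (((M : ℝ) ^ 2)⁻¹ - (M : ℝ)⁻¹) * G p 1 M := by
      linarith
    rw [hSN]
    have hN' : (N : ℝ) = M - 1 := by rw [hMN]; ring
    rw [hN'] at hNpos ⊢
    have hM1 : (M : ℝ) - 1 ≠ 0 := hNpos.ne'
    field_simp
    ring

lemma G0_le (p : ℕ) (hp : 1 ≤ p) (N : ℕ) (hN : 1 ≤ N) : G p 0 N ≤ p + 1 := by
  have h := invariant p hp N hN
  have h0 : ∀ j ∈ range p, 0 ≤ G p j N := fun j _ => by linarith [one_le_G p j N hN]
  have h1 : 0 ≤ (∑ j ∈ range p, G p j N) / (N : ℝ) :=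
    div_nonneg (Finset.sum_nonneg h0) (Nat.cast_nonneg N)
  linarith

lemma G_rec (p j N : ℕ) (hN : 1 ≤ N) :
    G p j N = ∑ m ∈ Icc 1 N, ((m : ℝ) ^ (per p j))⁻¹ * G p (j + 1) m := by
  unfold G
  rw [F_rec _ (fun i => one_le_per _ _) N hN]
  simp only [zero_add]
  apply Finset.sum_congr rfl
  intro m _
  congr 2
  ext i
  congr 1
  ring

lemma G_bound (p : ℕ) (hp : 1 ≤ p) (i : ℕ) : i ≤ p → ∀ N : ℕ, 1 ≤ N →
    G p (p - i) N ≤ (p + 1) * ((harmonic N : ℚ) : ℝ) ^ i := by
  induction i with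
  | zero =>
    intro _ N hN
    have h3 : G p p N = G p 0 N := by have := G_period p 0 N; simpa using this
    simpa [h3] using G0_le p hp N hN
  | succ i ih =>
    intro hi N hN
    have ih' := ih (by omega)
    have hh : ((harmonic N : ℚ) : ℝ) = ∑ m ∈ Icc 1 N, ((m : ℝ))⁻¹ := by
      rw [harmonic_eq_sum_Icc]; push_cast; rfl
    have hmono : ∀ m ∈ Icc 1 N, ((harmonic m : ℚ) : ℝ) ≤ ((harmonic N : ℚ) : ℝ) := by
      intro m hm
      rw [harmonic_eq_sum_Icc, harmonic_eq_sum_Icc]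
      push_cast
      apply Finset.sum_le_sum_of_subset_of_nonneg
        (Finset.Icc_subset_Icc_right (Finset.mem_Icc.1 hm).2)
      intro a _ _; positivity
    have hnn : ∀ m : ℕ, 0 ≤ ((harmonic m : ℚ) : ℝ) := by
      intro m; rw [harmonic_eq_sum_Icc]; push_cast
      exact Finset.sum_nonneg fun a _ => by positivity
    rw [G_rec p _ N hN]
    have e : p - (i + 1) + 1 = p - i := by omega
    rw [e]
    calc ∑ m ∈ Icc 1 N, ((m : ℝ) ^ (per p (p - (i + 1))))⁻¹ * G p (p - i) m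
        ≤ ∑ m ∈ Icc 1 N, (m : ℝ)⁻¹ * ((p + 1) * ((harmonic N : ℚ) : ℝ) ^ i) := by
          apply Finset.sum_le_sum
          intro m hm
          have hm1 : 1 ≤ m := (Finset.mem_Icc.1 hm).1
          have hm0 : (0:ℝ) < m := by exact_mod_cast hm1
          have hm1' : (1:ℝ) ≤ m := by exact_mod_cast hm1
          apply mul_le_mul
          · apply inv_anti₀ hm0
            exact le_self_pow₀ hm1' (by have := one_le_per p (p - (i + 1)); omega)
          · refine (ih' m hm1).trans ?_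
            apply mul_le_mul_of_nonneg_left _ (by positivity)
            exact pow_le_pow_left₀ (hnn m) (hmono m hm) i
          · linarith [one_le_G p (p - i) m hm1]
          · positivity
      _ = (p + 1) * ((harmonic N : ℚ) : ℝ) ^ (i + 1) := by
          rw [← Finset.sum_mul, ← hh]; ring

lemma tendsto_log_pow_div (p : ℕ) :
    Tendsto (fun N : ℕ => (1 + Real.log N) ^ p / (N : ℝ)) atTop (𝓝 0) := by
  have h1 : Tendsto (fun x : ℝ => Real.log x ^ p / x) atTop (𝓝 0) := by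
    have := (Real.isLittleO_pow_log_id_atTop (n := p)).tendsto_div_nhds_zero
    simpa using this
  have h2 : Tendsto (fun N : ℕ => Real.exp 1 * (N : ℝ)) atTop atTop :=
    (tendsto_natCast_atTop_atTop).const_mul_atTop (Real.exp_pos 1)
  have h3 := (h1.comp h2).const_mul (Real.exp 1)
  rw [mul_zero] at h3
  apply h3.congr'
  filter_upwards [eventually_ge_atTop 1] with N hN
  have hN0 : (0:ℝ) < N := by exact_mod_cast hN
  simp only [Function.comp]
  rw [Real.log_mul (Real.exp_pos 1).ne' hN0.ne', Real.log_exp]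
  have := Real.exp_pos 1
  field_simp

lemma tendsto_G0 (p : ℕ) (hp : 1 ≤ p) : Tendsto (fun N => G p 0 N) atTop (𝓝 (p + 1)) := by
  have hb : ∀ N : ℕ, 1 ≤ N → (∑ j ∈ range p, G p j N) / N
      ≤ (p * (p + 1)) * ((1 + Real.log N) ^ p / N) := by
    intro N hN
    have hN0 : (0:ℝ) < N := by exact_mod_cast hN
    have hlog : 0 ≤ Real.log N := Real.log_nonneg (by exact_mod_cast hN)
    have hH := harmonic_le_one_add_log N
    have hHn : 0 ≤ ((harmonic N : ℚ) : ℝ) := by
      rw [harmonic_eq_sum_Icc]; push_cast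
      exact Finset.sum_nonneg fun a _ => by positivity
    have h1 : ∀ j ∈ range p, G p j N ≤ (p + 1) * (1 + Real.log N) ^ p := by
      intro j hj
      have hjp : j < p := Finset.mem_range.1 hj
      have := G_bound p hp (p - j) (by omega) N hN
      rw [show p - (p - j) = j by omega] at this
      refine this.trans ?_
      apply mul_le_mul_of_nonneg_left _ (by positivity)
      calc ((harmonic N : ℚ) : ℝ) ^ (p - j) ≤ (1 + Real.log N) ^ (p - j) :=
            pow_le_pow_left₀ hHn hH _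
        _ ≤ (1 + Real.log N) ^ p := pow_le_pow_right₀ (by linarith) (by omega)
    have h2 := Finset.sum_le_sum h1
    rw [Finset.sum_const, Finset.card_range, nsmul_eq_mul] at h2
    rw [mul_div_assoc']
    apply div_le_div_of_nonneg_right _ hN0.le
    linarith
  have h5 := (tendsto_log_pow_div p).const_mul ((p : ℝ) * ((p : ℝ) + 1))
  rw [mul_zero] at h5
  have h3 : Tendsto (fun N : ℕ => (∑ j ∈ range p, G p j N) / (N : ℝ)) atTop (𝓝 0) := by
    refine squeeze_zero' ?_ ?_ h5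
    · filter_upwards [eventually_ge_atTop 1] with N hN
      have h0 : ∀ j ∈ range p, 0 ≤ G p j N := fun j _ => by linarith [one_le_G p j N hN]
      exact div_nonneg (Finset.sum_nonneg h0) (Nat.cast_nonneg N)
    · filter_upwards [eventually_ge_atTop 1] with N hN
      exact hb N hN
  have h4 : Tendsto (fun N : ℕ => ((p : ℝ) + 1) - (∑ j ∈ range p, G p j N) / (N : ℝ)) atTop
      (𝓝 (((p : ℝ) + 1) - 0)) := tendsto_const_nhds.sub h3
  rw [sub_zero] at h4
  apply h4.congr'
  filter_upwards [eventually_ge_atTop 1] with N hN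
  linarith [invariant p hp N hN]

/-! ### Passage to the infinite sums -/

/-- the summand restricted to admissible tuples -/
noncomputable def f (r : ℕ) (k : ℕ → ℕ) (n : {n : Fin r → ℕ // Antitone n ∧ ∀ i, 1 ≤ n i}) : ℝ :=
  ∏ i, ((n.1 i : ℝ) ^ (k i))⁻¹

lemma f_nonneg (r : ℕ) (k : ℕ → ℕ) (n) : 0 ≤ f r k n :=
  Finset.prod_nonneg fun i _ => by positivity

/-- the exhausting finite sets -/
noncomputable def ex (r N : ℕ) : Finset {n : Fin r → ℕ // Antitone n ∧ ∀ i, 1 ≤ n i} :=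
  (tup r N).subtype _

lemma mem_ex {r N : ℕ} {n : {n : Fin r → ℕ // Antitone n ∧ ∀ i, 1 ≤ n i}} :
    n ∈ ex r N ↔ ∀ i, n.1 i ≤ N := by
  simp only [ex, Finset.mem_subtype, mem_tup]
  exact ⟨fun h i => (h.2 i).2, fun h => ⟨n.2.1, fun i => ⟨n.2.2 i, h i⟩⟩⟩

lemma sum_ex (r N : ℕ) (k : ℕ → ℕ) : ∑ n ∈ ex r N, f r k n = S r k N := by
  rw [S_eq]
  have : ∀ n ∈ tup r N, Antitone n ∧ ∀ i, 1 ≤ n i := by
    intro n hn; rw [mem_tup] at hn; exact ⟨hn.1, fun i => (hn.2 i).1⟩
  rw [← Finset.sum_subtype_of_mem (fun n => term (fun i : Fin r => k i) n) this]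
  rfl

lemma ex_mono (r : ℕ) : Monotone (ex r) := by
  intro M N h n hn
  rw [mem_ex] at hn ⊢
  exact fun i => (hn i).trans h

lemma mem_ex_self (r : ℕ) (n : {n : Fin r → ℕ // Antitone n ∧ ∀ i, 1 ≤ n i}) :
    n ∈ ex r (∑ i, n.1 i) := by
  rw [mem_ex]
  intro i
  exact Finset.single_le_sum (f := fun i => n.1 i) (fun _ _ => Nat.zero_le _) (Finset.mem_univ i)

lemma tendsto_ex (r : ℕ) : Tendsto (ex r) atTop atTop :=
  tendsto_atTop_finset_of_monotone (ex_mono r) fun n => ⟨_, mem_ex_self r n⟩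

lemma summable_f (r : ℕ) (k : ℕ → ℕ) {c : ℝ} (hc : ∀ N, 1 ≤ N → S r k N ≤ c) :
    Summable (f r k) := by
  apply summable_of_sum_le (f_nonneg r k) (c := c)
  intro u
  have hu : ∃ N, 1 ≤ N ∧ u ⊆ ex r N := by
    obtain ⟨N, hN⟩ := ((tendsto_ex r).eventually_ge_atTop u).and (eventually_ge_atTop 1) |>.exists
    exact ⟨N, hN.2, hN.1⟩
  obtain ⟨N, hN, hu⟩ := hu
  calc ∑ n ∈ u, f r k n ≤ ∑ n ∈ ex r N, f r k n :=
        Finset.sum_le_sum_of_subset_of_nonneg hu fun n _ _ => f_nonneg r k n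
    _ = S r k N := sum_ex r N k
    _ ≤ c := hc N hN

lemma tendsto_S_tsum (r : ℕ) (k : ℕ → ℕ) {c : ℝ} (hc : ∀ N, 1 ≤ N → S r k N ≤ c) :
    Tendsto (fun N => S r k N) atTop (𝓝 (∑' n, f r k n)) := by
  have h := (summable_f r k hc).hasSum.comp (tendsto_ex r)
  refine h.congr fun N => ?_
  simp only [Function.comp]
  exact sum_ex r N k

lemma S_mono_N (r : ℕ) (k : ℕ → ℕ) : Monotone fun N => S r k N := by
  intro M N h
  simp only
  rw [← sum_ex, ← sum_ex]
  exact Finset.sum_le_sum_of_subset_of_nonneg (ex_mono r h) fun n _ _ => f_nonneg r k n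

theorem main (p : ℕ) (hp : 1 ≤ p) :
    (∀ r, Summable (f r (per p))) ∧
    Tendsto (fun r => ∑' n, f r (per p) n) atTop (𝓝 (p + 1)) := by
  have hG0 : ∀ N, G p 0 N = F (per p) N := fun N => rfl
  have hc : ∀ r N, 1 ≤ N → S r (per p) N ≤ p + 1 := by
    intro r N hN
    have h1 : S r (per p) N ≤ F (per p) N :=
      le_ciSup (bdd (per p) (one_le_per p) N hN) r
    exact h1.trans (G0_le p hp N hN)
  refine ⟨fun r => summable_f r _ (hc r), ?_⟩
  have hle : ∀ r, ∑' n, f r (per p) n ≤ p + 1 := by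
    intro r
    apply le_of_tendsto (tendsto_S_tsum r (per p) (hc r))
    filter_upwards [eventually_ge_atTop 1] with N hN
    exact hc r N hN
  have hge : ∀ r N, S r (per p) N ≤ ∑' n, f r (per p) n := fun r N =>
    (S_mono_N r (per p)).ge_of_tendsto (tendsto_S_tsum r (per p) (hc r)) N
  rw [tendsto_order]
  constructor
  · intro a ha
    have h1 := (tendsto_order.1 (tendsto_G0 p hp)).1 a ha
    obtain ⟨N, hN1, hN⟩ := (h1.and (eventually_ge_atTop 1)).exists
    have h2 := tendsto_S (per p) (one_le_per p) N hN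
    have h3 := (tendsto_order.1 h2).1 a hN1
    filter_upwards [h3] with r hr
    exact hr.trans_le (hge r N)
  · intro a ha
    exact Eventually.of_forall fun r => (hle r).trans_lt ha

end Run7.h842.Eta
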